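import Pool.Agent.H89.KapH.Main

/-!
# Kaplansky's line game with bias `(m : o)`: choice of the parameters
-/

set_option autoImplicit false

open Finset

namespace Pool.Agent.H89.KapH

open Pool.Agent.H89.Kap Pool.Agent.H89.KapG

/-- `(1 + k m/(k+1))^(k+1) ≥ (1 + m)^k`. -/
lemma theta_pow (k m : ℕ) :
    (1 + (m : ℝ)) ^ k ≤ (1 + (k : ℝ) / (k + 1) * m) ^ (k + 1) := by
  have hk0 : (0 : ℝ) < (k : ℝ) + 1 := by positivity
  have hm0 : (0 : ℝ) < 1 + (m : ℝ) := by positivity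
  have e : 1 + (k : ℝ) / (k + 1) * m
      = (1 + m) * (1 + (-(m / (((k : ℝ) + 1) * (1 + m))))) := by
    field_simp; ring
  rw [e, mul_pow]
  have hB : 1 + ((k + 1 : ℕ) : ℝ) * (-(m / (((k : ℝ) + 1) * (1 + m))))
      ≤ (1 + (-(m / (((k : ℝ) + 1) * (1 + m))))) ^ (k + 1) := by
    apply one_add_mul_le_pow
    have : m / (((k : ℝ) + 1) * (1 + m)) ≤ 1 := by
      rw [div_le_one (by positivity)]
      have h1 : (0 : ℝ) ≤ k := by positivity
      have h2 : (0 : ℝ) ≤ m := by positivity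
      nlinarith
    linarith
  have h1 : 1 + ((k + 1 : ℕ) : ℝ) * (-(m / (((k : ℝ) + 1) * (1 + m)))) = 1 / (1 + m) := by
    push_cast; field_simp; ring
  rw [h1] at hB
  calc (1 + (m : ℝ)) ^ k = (1 + m) ^ (k + 1) * (1 / (1 + m)) := by
        rw [pow_succ]; field_simp
    _ ≤ _ := mul_le_mul_of_nonneg_left hB (by positivity)

/-- `(1 + 1/k)^k ≤ 3`. -/
lemma one_add_inv_pow (k : ℕ) (hk : 1 ≤ k) : (1 + 1 / (k : ℝ)) ^ k ≤ 3 := by
  have hk0 : (0 : ℝ) < k := by exact_mod_cast hk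
  have h1 : 1 + 1 / (k : ℝ) ≤ Real.exp (1 / k) := by
    have := Real.add_one_le_exp (1 / (k : ℝ))
    linarith
  have h2 : (1 + 1 / (k : ℝ)) ^ k ≤ Real.exp (1 / k) ^ k :=
    pow_le_pow_left₀ (by positivity) h1 k
  have h3 : Real.exp (1 / (k : ℝ)) ^ k = Real.exp 1 := by
    rw [← Real.exp_nat_mul]
    congr 1
    field_simp
  rw [h3] at h2
  have := Real.exp_one_lt_d9
  linarith

/-- **The biased asymmetric game.** -/
theorem final (m o k l r : ℕ) (hm : 1 ≤ m) (ho : 1 ≤ o) (hk : 2 ≤ k) (hr : r ≤ o)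
    (hl : ((m + o) ^ (2 * k) * o ^ 8 * (1 + m) ^ 3 * k ^ 14 * 2 ^ 48) ^ o
      ≤ m ^ (2 * k * o) * (1 + m) ^ l) :
    ∃ σ : List (ℤ × ℤ) → ℤ × ℤ, (∀ h : List (ℤ × ℤ), σ h ∉ h) ∧
      ∀ p : ℕ → ℤ × ℤ, Function.Injective p →
        (∀ n : ℕ, IM m o r n → p n = σ ((List.range n).map p)) →
        ∃ t i : ℕ, t * m ^ (k - 1) < 14000 * o * k ^ 4 * (m + o) ^ (k - 1) ∧ i < m ∧
          Wins (IM m o r) k p ((m + o) * t + r + i) ∧
          ∀ n < (m + o) * t + r + i, ¬ Wins (fun j => ¬ IM m o r j) l p n := by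
  have hm1 : (1 : ℝ) ≤ m := by exact_mod_cast hm
  have hm0 : (0 : ℝ) < m := by linarith
  have ho1 : (1 : ℝ) ≤ o := by exact_mod_cast ho
  have ho0 : (0 : ℝ) < o := by linarith
  have hk2 : (2 : ℝ) ≤ k := by exact_mod_cast hk
  have hk0 : (0 : ℝ) < k := by linarith
  have hk1 : (0 : ℝ) < (k : ℝ) + 1 := by linarith
  set θ : ℝ := (k : ℝ) / (k + 1) with hθ
  set c : ℝ := 1 + o * (k + 1) / (m * k) with hc
  set R : ℝ := 1 + o / m with hR
  have hR1 : 1 ≤ R := by rw [hR]; have : 0 ≤ (o : ℝ) / m := by positivity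
                         linarith
  have hR0 : 0 < R := by linarith
  set B : ℝ := R ^ (k - 1) with hB
  have hB1 : 1 ≤ B := one_le_pow₀ hR1
  set A : ℕ := ⌈432 * o * k * B⌉₊ with hA
  set T : ℕ := 32 * k ^ 3 * A with hT
  have hθ0 : 0 < θ := by rw [hθ]; positivity
  have hθ1 : θ < 1 := by rw [hθ, div_lt_one hk1]; linarith
  have h1θ : 1 - θ = 1 / (k + 1) := by rw [hθ]; field_simp; ring
  have hbase : 1 ≤ 1 + θ * m := by
    have : 0 ≤ θ * m := by positivity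
    linarith
  set d : ℝ := (1 + θ * m) ^ ((o : ℝ)⁻¹) with hd
  have hd1 : 1 ≤ d := Real.one_le_rpow hbase (by positivity)
  have hdo : d ^ o = 1 + θ * m := Real.rpow_inv_natCast_pow (by linarith) (by omega)
  have hokB : 1 ≤ o * k * B := by
    have h1 : (1 : ℝ) ≤ o * k := by nlinarith
    nlinarith
  have hAge : 432 * o * k * B ≤ (A : ℝ) := Nat.le_ceil _
  have hAle : (A : ℝ) ≤ 433 * o * k * B := by
    have := Nat.ceil_lt_add_one (show 0 ≤ 432 * o * k * B by positivity)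
    rw [← hA] at this
    linarith
  have hA0 : (0 : ℝ) < A := lt_of_lt_of_le (by positivity) hAge
  have hTr : (T : ℝ) = 32 * k ^ 3 * A := by rw [hT]; push_cast; ring
  have hT0 : (0 : ℝ) < T := by rw [hTr]; positivity
  have hT0' : 1 ≤ T := by
    have : 0 < T := by exact_mod_cast hT0
    omega
  set μ : ℝ := 1 / (8 * o ^ 2 * (1 + m) ^ 2 * T ^ 2) with hμ
  have hμ0 : 0 < μ := by rw [hμ]; positivity
  -- the numerical hypotheses
  have hmc : (m : ℝ) * (c - 1) = o * (k + 1) / k := by rw [hc]; field_simp; ring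
  have hcB : c ^ (k - 1) ≤ B * 3 := by
    have hcle : c ≤ R * (1 + 1 / k) := by
      have : R * (1 + 1 / k) - c = 1 / k := by rw [hR, hc]; field_simp; ring
      have : 0 < 1 / (k : ℝ) := by positivity
      linarith
    have hc0 : 0 ≤ c := by rw [hc]; positivity
    calc c ^ (k - 1) ≤ (R * (1 + 1 / k)) ^ (k - 1) := pow_le_pow_left₀ hc0 hcle _
      _ = B * (1 + 1 / k) ^ (k - 1) := mul_pow _ _ _
      _ ≤ B * 3 := by
          apply mul_le_mul_of_nonneg_left _ (by positivity)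
          refine le_trans ?_ (one_add_inv_pow k (by omega))
          apply pow_le_pow_right₀ _ (by omega)
          have : 0 < 1 / (k : ℝ) := by positivity
          linarith
  have hk94 : ((k : ℝ) + 1) ^ 2 ≤ 9 / 4 * k ^ 2 := by nlinarith
  have hcA : 64 * (m * (c - 1)) * c ^ (k - 1) ≤ (1 - θ) * A := by
    rw [h1θ, hmc]
    have h1 : 64 * (o * (k + 1) / k) * c ^ (k - 1) ≤ 64 * (o * (k + 1) / k) * (B * 3) :=
      mul_le_mul_of_nonneg_left hcB (by positivity)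
    refine h1.trans ?_
    rw [one_div_mul_eq_div, le_div_iff₀ hk1]
    refine le_trans ?_ hAge
    have e : 64 * (o * (k + 1) / k) * (B * 3) * (k + 1) = 192 * o * B * (k + 1) ^ 2 / k := by ring
    rw [e, div_le_iff₀ hk0]
    have h2 : 192 * o * B * (k + 1) ^ 2 ≤ 192 * o * B * (9 / 4 * k ^ 2) :=
      mul_le_mul_of_nonneg_left hk94 (by positivity)
    refine h2.trans (le_of_eq ?_)
    ring
  have hpar : Par m o k A c d θ μ := by
    refine ⟨hm, ho, hk, hθ0, hθ1, ?_, hd1, hdo, hcA, hμ0.le⟩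
    rw [hc, hθ]; field_simp; ring
  have hT1 : μ * (2 * o ^ 2 * (1 + m) ^ 2 * T ^ 2) ≤ 1 / 4 := by
    apply le_of_eq
    rw [hμ]; field_simp; ring
  have hlog : k * Real.log c + 1 ≤ 2 * o * k := by
    have h1 : Real.log c ≤ c - 1 := Real.log_le_sub_one_of_pos (by rw [hc]; positivity)
    have h2 : (k : ℝ) * (c - 1) ≤ o * (k + 1) := by
      have : (k : ℝ) * (c - 1) = o * (k + 1) / m := by rw [hc]; field_simp; ring
      rw [this]
      exact div_le_self (by positivity) hm1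
    have h3 : (k : ℝ) * Real.log c ≤ k * (c - 1) := mul_le_mul_of_nonneg_left h1 hk0.le
    nlinarith
  have hT2 : k * Real.log c + 1 ≤ (1 - θ) * (m * (c - 1)) / (8 * (2 * k * A : ℕ)) * T := by
    refine hlog.trans (le_of_eq ?_)
    rw [h1θ, hmc, hTr]
    push_cast
    field_simp
    ring
  -- the hypothesis on `l` in the reals
  set H : ℝ := R ^ (2 * k) * o ^ 8 * (1 + m) ^ 3 * k ^ 14 * 2 ^ 48 with hH
  have hH0 : 0 < H := by rw [hH]; positivity
  have hHl : H ^ o ≤ (1 + m : ℝ) ^ l := by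
    have h1 : (((m + o : ℝ) ^ (2 * k) * o ^ 8 * (1 + m) ^ 3 * k ^ 14 * 2 ^ 48) ^ o)
        ≤ m ^ (2 * k * o) * (1 + m) ^ l := by exact_mod_cast hl
    have e1 : (m + o : ℝ) = m * R := by rw [hR]; field_simp
    have e2 : ((m + o : ℝ) ^ (2 * k) * o ^ 8 * (1 + m) ^ 3 * k ^ 14 * 2 ^ 48)
        = m ^ (2 * k) * H := by rw [e1, mul_pow, hH]; ring
    rw [e2, mul_pow, ← pow_mul] at h1
    exact le_of_mul_le_mul_left h1 (by positivity)
  have hHm : (1 + m : ℝ) ^ 3 ≤ H := by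
    have g1 : (1 : ℝ) ≤ R ^ (2 * k) := one_le_pow₀ hR1
    have g2 : (1 : ℝ) ≤ (o : ℝ) ^ 8 := one_le_pow₀ ho1
    have g3 : (1 : ℝ) ≤ (k : ℝ) ^ 14 := one_le_pow₀ (by linarith)
    have g4 : (1 : ℝ) ≤ 2 ^ 48 := by norm_num
    have g5 : (0 : ℝ) ≤ (1 + m : ℝ) ^ 3 := by positivity
    have g6 : 1 ≤ R ^ (2 * k) * o ^ 8 := one_le_mul_of_one_le_of_one_le g1 g2
    have g7 : (1 : ℝ) ≤ k ^ 14 * 2 ^ 48 := one_le_mul_of_one_le_of_one_le g3 g4
    calc (1 + m : ℝ) ^ 3 = 1 * (1 + m) ^ 3 * 1 := by ring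
      _ ≤ (R ^ (2 * k) * o ^ 8) * (1 + m) ^ 3 * (k ^ 14 * 2 ^ 48) := by
          apply mul_le_mul (mul_le_mul_of_nonneg_right g6 g5) g7 zero_le_one (by positivity)
      _ = H := by rw [hH]; ring
  have hl2 : 2 ≤ l := by
    by_contra hlt
    push Not at hlt
    have h1 : (1 + m : ℝ) ^ l ≤ (1 + m) ^ 1 := pow_le_pow_right₀ (by linarith) (by omega)
    have h2 : (1 : ℝ) ≤ H := le_trans (one_le_pow₀ (by linarith)) hHm
    have h3 : H ≤ H ^ o := by
      calc H = H ^ 1 := (pow_one H).symm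
        _ ≤ H ^ o := pow_le_pow_right₀ h2 ho
    have h4 : (1 + m : ℝ) ^ 1 < (1 + m) ^ 3 := pow_lt_pow_right₀ (by linarith) (by norm_num)
    linarith
  -- the size of `l`
  set X : ℝ := R ^ (2 * k - 2) * o ^ 5 * (1 + m) ^ 2 * k ^ 9 * 2 ^ 32 with hX
  have hX0 : 0 < X := by rw [hX]; positivity
  have hXl : X ≤ d ^ l := by
    have hok : o * (k + 1) ≠ 0 := by positivity
    rw [← pow_le_pow_iff_left₀ hX0.le (by positivity) hok]
    have e1 : (d ^ l) ^ (o * (k + 1)) = ((1 + θ * m) ^ (k + 1)) ^ l := by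
      rw [← hdo, ← pow_mul, ← pow_mul, ← pow_mul]; congr 1; ring
    have h1 : ((1 + m : ℝ) ^ k) ^ l ≤ ((1 + θ * m) ^ (k + 1)) ^ l :=
      pow_le_pow_left₀ (by positivity) (theta_pow k m) l
    have h2 : (H ^ o) ^ k ≤ ((1 + m : ℝ) ^ k) ^ l := by
      calc _ ≤ ((1 + m : ℝ) ^ l) ^ k := pow_le_pow_left₀ (by positivity) hHl k
        _ = _ := by rw [← pow_mul, ← pow_mul]; congr 1; ring
    have h4 : X ^ (o * (k + 1)) ≤ (H ^ o) ^ k := by
      have e2 : X ^ (o * (k + 1)) = (X ^ (k + 1)) ^ o := by rw [← pow_mul]; congr 1; ring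
      have e3 : (H ^ o) ^ k = (H ^ k) ^ o := by rw [← pow_mul, ← pow_mul]; congr 1; ring
      rw [e2, e3]
      apply pow_le_pow_left₀ (by positivity)
      have g1 : (R ^ (2 * k - 2)) ^ (k + 1) ≤ (R ^ (2 * k)) ^ k := by
        rw [← pow_mul, ← pow_mul]
        apply pow_le_pow_right₀ hR1
        obtain ⟨j, rfl⟩ : ∃ j, k = j + 2 := ⟨k - 2, by omega⟩
        have : 2 * (j + 2) - 2 = 2 * j + 2 := by omega
        rw [this]
        nlinarith
      have g2 : ((o : ℝ) ^ 5) ^ (k + 1) ≤ ((o : ℝ) ^ 8) ^ k := by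
        rw [← pow_mul, ← pow_mul]
        exact pow_le_pow_right₀ ho1 (by omega)
      have g3 : ((1 + m : ℝ) ^ 2) ^ (k + 1) ≤ ((1 + m : ℝ) ^ 3) ^ k := by
        rw [← pow_mul, ← pow_mul]
        exact pow_le_pow_right₀ (by linarith) (by omega)
      have g4 : ((k : ℝ) ^ 9) ^ (k + 1) ≤ ((k : ℝ) ^ 14) ^ k := by
        rw [← pow_mul, ← pow_mul]
        exact pow_le_pow_right₀ (by linarith) (by omega)
      have g5 : ((2 : ℝ) ^ 32) ^ (k + 1) ≤ ((2 : ℝ) ^ 48) ^ k := by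
        rw [← pow_mul, ← pow_mul]
        exact pow_le_pow_right₀ (by norm_num) (by omega)
      rw [hX, hH]
      simp only [mul_pow _ _ (k + 1), mul_pow _ _ k]
      exact mul_le_mul (mul_le_mul (mul_le_mul (mul_le_mul g1 g2 (by positivity) (by positivity))
        g3 (by positivity) (by positivity)) g4 (by positivity) (by positivity)) g5
        (by positivity) (by positivity)
    rw [e1]
    exact h4.trans (h2.trans h1)
  have hTle : (T : ℝ) ≤ 13856 * o * k ^ 4 * B := by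
    rw [hTr]
    calc 32 * (k : ℝ) ^ 3 * A ≤ 32 * k ^ 3 * (433 * o * k * B) :=
          mul_le_mul_of_nonneg_left hAle (by positivity)
      _ = 13856 * o * k ^ 4 * B := by ring
  have hlfin : k * Real.log c + 1 ≤ μ * d ^ l := by
    refine hlog.trans ?_
    have h1 : μ * X ≤ μ * d ^ l := mul_le_mul_of_nonneg_left hXl hμ0.le
    refine le_trans ?_ h1
    rw [hμ, div_mul_eq_mul_div, le_div_iff₀ (by positivity), one_mul, hX]
    have e1 : R ^ (2 * k - 2) = B ^ 2 := by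
      rw [hB, ← pow_mul]; congr 1; omega
    rw [e1]
    have h3 : (T : ℝ) ^ 2 ≤ (13856 * o * k ^ 4 * B) ^ 2 := pow_le_pow_left₀ hT0.le hTle 2
    calc 2 * (o : ℝ) * k * (8 * o ^ 2 * (1 + m) ^ 2 * T ^ 2)
        = (16 * o ^ 3 * k * (1 + m) ^ 2) * T ^ 2 := by ring
      _ ≤ (16 * o ^ 3 * k * (1 + m) ^ 2) * (13856 * o * k ^ 4 * B) ^ 2 :=
          mul_le_mul_of_nonneg_left h3 (by positivity)
      _ = (B ^ 2 * o ^ 5 * (1 + m) ^ 2 * k ^ 9) * (16 * 13856 ^ 2) := by ring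
      _ ≤ (B ^ 2 * o ^ 5 * (1 + m) ^ 2 * k ^ 9) * 2 ^ 32 :=
          mul_le_mul_of_nonneg_left (by norm_num) (by positivity)
  refine ⟨strat (IM m o r) k A c d μ, strat_notMem _ _ _ _ _ _, fun p hp hcons => ?_⟩
  obtain ⟨t, i, ht, hi, h1, h2⟩ := main (T := T) hpar hp hr hcons hT0' hT1 hT2 hl2 hlfin
  refine ⟨t, i, ?_, hi, h1, h2⟩
  -- the bound for the number of turns
  have g1 : (t : ℝ) < 13856 * o * k ^ 4 * B := by
    have : (t : ℝ) < T := by exact_mod_cast ht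
    linarith
  have g2 : B * m ^ (k - 1) = (m + o) ^ (k - 1) := by
    rw [hB, ← mul_pow]
    congr 1
    rw [hR]; field_simp
  have g3 : (t : ℝ) * m ^ (k - 1) < 14000 * o * k ^ 4 * (m + o) ^ (k - 1) := by
    have hmp : (0 : ℝ) < m ^ (k - 1) := by positivity
    calc (t : ℝ) * m ^ (k - 1) < (13856 * o * k ^ 4 * B) * m ^ (k - 1) :=
          mul_lt_mul_of_pos_right g1 hmp
      _ = 13856 * o * k ^ 4 * (m + o) ^ (k - 1) := by rw [mul_assoc, g2]
      _ ≤ 14000 * o * k ^ 4 * (m + o) ^ (k - 1) := by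
          have : (0 : ℝ) ≤ o * k ^ 4 * (m + o) ^ (k - 1) := by positivity
          nlinarith
  exact_mod_cast g3

end Pool.Agent.H89.KapH
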