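import Pool.Agent.H89.KapH.Play

/-!
# Kaplansky's line game with bias `(m : o)`: the strategy wins
-/

set_option autoImplicit false

open Finset

namespace Pool.Agent.H89.KapH

open Pool.Agent.H89.Kap Pool.Agent.H89.KapG

variable {m o k A T l r : ℕ} {c d θ μ : ℝ} {p : ℕ → ℤ × ℤ}

lemma Phi_empty (c : ℝ) (A N : ℕ) : Phi c (fam A N) ∅ ∅ = (A : ℝ) * N := by
  unfold Phi
  have : ∀ L ∈ fam A N, u c ∅ ∅ L = 1 := by
    intro L _
    unfold u
    rw [if_pos (by simp)]
    simp
  rw [sum_congr rfl this, sum_const, card_fam, nsmul_eq_mul, mul_one]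
  push_cast
  ring

lemma Phi_nonneg {c : ℝ} (hc : 0 ≤ c) (E : Finset (Set (ℤ × ℤ))) (F S : Finset (ℤ × ℤ)) :
    0 ≤ Phi c E F S := sum_nonneg fun L _ => u_nonneg hc F S L

/-- No hit at the own moves before `n`. -/
def NoHit (m o r k A : ℕ) (p : ℕ → ℤ × ℤ) (n : ℕ) : Prop :=
  ∀ n' < n, IM m o r n' → ¬ ∃ L, Hit k A (Fo (IM m o r) p n') (So (IM m o r) p n') L

lemma NoHit.mono {n n' : ℕ} (h : NoHit m o r k A p n') (hn : n ≤ n') : NoHit m o r k A p n :=
  fun i hi hI => h i (by omega) hI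

lemma ok_of_not_hit {F S : Finset (ℤ × ℤ)} (hk : 2 ≤ k) (h : ¬ ∃ L, Hit k A F S L) :
    OkJ k A (k - 2) F S := by
  intro L hL hS
  by_contra hc
  push Not at hc
  exact h ⟨L, hL, hS, by omega⟩

lemma OkJ.mono {j j' : ℕ} {F S : Finset (ℤ × ℤ)} (h : OkJ k A j F S) (hj : j ≤ j') :
    OkJ k A j' F S := fun L hL hS => (h L hL hS).trans hj

lemma okk (hk : 2 ≤ k) : ∀ n : ℕ, NoHit m o r k A p n →
    OkJ k A (k - 1) (Fo (IM m o r) p n) (So (IM m o r) p n) := by
  classical
  intro n
  induction n with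
  | zero =>
      intro _ L _ _
      have : Fo (IM m o r) p 0 = ∅ := by simp [Fo]
      rw [this]; simp
  | succ n ih =>
      intro h
      by_cases hI : IM m o r n
      · have h1 := ok_of_not_hit hk (h n (Nat.lt_succ_self n) hI)
        rw [Fo_pos hI, So_pos hI]
        intro L hL hS
        have h2 := h1 L hL hS
        rw [filter_insert]
        split_ifs
        · have := card_insert_le (p n) ((Fo (IM m o r) p n).filter (fun z => z ∈ L))
          omega
        · omega
      · have h1 := ih (h.mono (Nat.le_succ n))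
        rw [Fo_neg hI, So_neg hI]
        intro L hL hS
        exact h1 L hL fun s hs => hS s (mem_insert_of_mem hs)

lemma mv_spec (hcons : ∀ n : ℕ, IM m o r n →
      p n = strat (IM m o r) k A c d μ ((List.range n).map p)) {n : ℕ} (hn : IM m o r n) :
    ((∃ L, Hit k A (Fo (IM m o r) p n) (So (IM m o r) p n) L) →
        ∃ L, Hit k A (Fo (IM m o r) p n) (So (IM m o r) p n) L ∧ p n ∈ L) ∧
      ((¬ ∃ L, Hit k A (Fo (IM m o r) p n) (So (IM m o r) p n) L) →
        ∀ y, y ∉ Fo (IM m o r) p n → y ∉ So (IM m o r) p n →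
          fv k A c d μ (Fo (IM m o r) p n) (So (IM m o r) p n) y
            ≤ fv k A c d μ (Fo (IM m o r) p n) (So (IM m o r) p n) (p n)) := by
  have h1 := hcons n hn
  unfold strat at h1
  rw [hF_map, hS_map] at h1
  have h2 := (exists_mv k A c d μ (Fo (IM m o r) p n) (So (IM m o r) p n)).choose_spec.2.2
  have h3 : p n = (exists_mv k A c d μ (Fo (IM m o r) p n) (So (IM m o r) p n)).choose := h1
  rw [h3]
  exact h2

/-- The own stones of a round. -/
lemma msteps (h : Par m o k A c d θ μ) (hp : Function.Injective p) (hr : r ≤ o)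
    (hcons : ∀ n : ℕ, IM m o r n →
      p n = strat (IM m o r) k A c d μ ((List.range n).map p)) (t : ℕ)
    (hP : (A : ℝ) * (2 * k * A : ℕ) / 2 ≤ Phi c (fam A (2 * k * A))
      (Fo (IM m o r) p ((m + o) * t + r)) (So (IM m o r) p ((m + o) * t + r))) :
    ∀ i : ℕ, i ≤ m → NoHit m o r k A p ((m + o) * t + r + i) →
      ∃ G : ℝ, (i : ℝ) * ((c - 1) / (4 * (2 * k * A : ℕ))) ≤ G ∧
        (A : ℝ) * (2 * k * A : ℕ) / 2 ≤ Phi c (fam A (2 * k * A))
          (Fo (IM m o r) p ((m + o) * t + r + i)) (So (IM m o r) p ((m + o) * t + r + i)) ∧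
        Psi k A c d μ (Fo (IM m o r) p ((m + o) * t + r)) (So (IM m o r) p ((m + o) * t + r))
            + (1 - (1 - θ) / 8) * G
          ≤ Psi k A c d μ (Fo (IM m o r) p ((m + o) * t + r + i))
              (So (IM m o r) p ((m + o) * t + r + i)) ∧
        ∀ y, y ∉ Fo (IM m o r) p ((m + o) * t + r + i) →
          y ∉ So (IM m o r) p ((m + o) * t + r + i) →
          (i : ℝ) * fv k A c d μ (Fo (IM m o r) p ((m + o) * t + r + i))
              (So (IM m o r) p ((m + o) * t + r + i)) y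
            ≤ G + (i : ℝ) ^ 2 * ((c - 1) ^ 2 * c ^ (k - 1) / (A * (2 * k * A : ℕ) / 2)) := by
  intro i
  induction i with
  | zero =>
      intro _ _
      refine ⟨0, ?_, hP, ?_, ?_⟩
      · simp
      · simp
      · intro y _ _; simp
  | succ i ih =>
      intro him hno
      obtain ⟨G, hG1, hG2, hG3, hG4⟩ := ih (by omega) (hno.mono (by omega))
      set n := (m + o) * t + r + i with hn
      have hI : IM m o r n := IM_own t hr (by omega)
      have hnot := hno n (by omega) hI
      have hok := (ok_of_not_hit h.hk hnot).mono (show k - 2 ≤ k - 1 by omega)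
      have hxF : p n ∉ Fo (IM m o r) p n := notMem_Fo hp (le_refl n)
      obtain ⟨s1, s2, s3, s4⟩ := mstep h hok hxF ((mv_spec hcons hI).2 hnot) hG2
      have e1 : Fo (IM m o r) p (n + 1) = insert (p n) (Fo (IM m o r) p n) := Fo_pos hI
      have e2 : So (IM m o r) p (n + 1) = So (IM m o r) p n := So_pos hI
      have e3 : (m + o) * t + r + (i + 1) = n + 1 := by omega
      rw [e3, e1, e2]
      refine ⟨G + fv k A c d μ (Fo (IM m o r) p n) (So (IM m o r) p n) (p n), ?_, ?_, ?_, ?_⟩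
      · push_cast
        push_cast at hG1 s2
        linarith
      · exact hG2.trans s1
      · linarith
      · intro y hy1 hy2
        rw [mem_insert, not_or] at hy1
        have g1 := hG4 y hy1.2 hy2
        have g2 := s4 y hy1.1 hy1.2 hy2
        have g3 := (mv_spec hcons hI).2 hnot y hy1.2 hy2
        set ε := (c - 1) ^ 2 * c ^ (k - 1) / (A * (2 * k * A : ℕ) / 2) with hε
        have hε0 : 0 ≤ ε := by
          rw [hε]
          apply div_nonneg
          · exact mul_nonneg (sq_nonneg _) (pow_nonneg (by linarith [h.c1]) _)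
          · positivity
        have hi0 : (0 : ℝ) ≤ (i : ℝ) + 1 := by positivity
        have g4 := mul_le_mul_of_nonneg_left g2 hi0
        push_cast
        nlinarith [mul_nonneg (show (0 : ℝ) ≤ i by positivity) hε0]

lemma log_half {x y : ℝ} (hx : 0 < x) (hy : 0 < y) (h : Real.log x - 1 / 2 ≤ Real.log y) :
    x / 2 ≤ y := by
  have h1 : Real.log (x / 2) ≤ Real.log y := by
    rw [Real.log_div hx.ne' (by norm_num)]
    have := Real.log_two_gt_d9
    linarith
  exact (Real.log_le_log_iff (by positivity) hy).mp h1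

/-- The initial position. -/
lemma start (h : Par m o k A c d θ μ) (hp : Function.Injective p) (hr : r ≤ o) (hT0 : 1 ≤ T)
    (hT1 : μ * (2 * o ^ 2 * (1 + m) ^ 2 * T ^ 2) ≤ 1 / 4) :
    (A : ℝ) * (2 * k * A : ℕ) / 2 ≤ Phi c (fam A (2 * k * A))
      (Fo (IM m o r) p r) (So (IM m o r) p r) ∧
    Real.log ((A : ℝ) * (2 * k * A : ℕ)) - 1 / 4
      ≤ Psi k A c d μ (Fo (IM m o r) p r) (So (IM m o r) p r) := by
  classical
  set N : ℕ := 2 * k * A with hN
  have hc1 := h.c1
  have hk2 : (2 : ℝ) ≤ k := by exact_mod_cast h.hk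
  have hm1 : (1 : ℝ) ≤ m := by exact_mod_cast h.hm
  have hm0 : (0 : ℝ) < m := by linarith
  have ho1 : (1 : ℝ) ≤ o := by exact_mod_cast h.ho
  have h1θ : 0 < 1 - θ := by linarith [h.hθ1]
  have hA0 := h.A0
  have hNr : (N : ℝ) = 2 * k * A := by rw [hN]; push_cast; ring
  have hN0 : (0 : ℝ) < N := by rw [hNr]; positivity
  have hAN : (0 : ℝ) < (A : ℝ) * N := by positivity
  have hF : Fo (IM m o r) p r = ∅ := by
    have := Fo_block (I := IM m o r) (p := p) (a := 0) r (Nat.zero_le r)
      (fun i _ hi => not_IM_start hr hi)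
    rw [this]; simp [Fo]
  have hS : So (IM m o r) p r = (range r).image p := by
    have := So_block (I := IM m o r) (p := p) (a := 0) r (Nat.zero_le r)
      (fun i _ hi => not_IM_start hr hi)
    rw [this]
    have e : So (IM m o r) p 0 = ∅ := by simp [So]
    rw [e, empty_union, range_eq_Ico]
  set S0 := (range r).image p with hS0
  have hcard : S0.card = r := by rw [hS0, card_image_of_injective _ hp, card_range]
  have hro : (r : ℝ) ≤ o := by exact_mod_cast hr
  rw [hF, hS]
  -- the own potential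
  have h1 : (A : ℝ) * N - o * A ≤ Phi c (fam A N) ∅ S0 := by
    have hb := block1 (c := c) (by linarith) (E := fam A N) ∅ ∅ S0
    rw [empty_union, Phi_empty] at hb
    have hu : ∀ L ∈ fam A N, u c ∅ ∅ L ≤ 1 := by
      intro L _
      unfold u
      rw [if_pos (by simp)]
      simp
    have h2 : ∑ y ∈ S0, phi c (fam A N) ∅ ∅ y ≤ o * A := by
      calc ∑ y ∈ S0, phi c (fam A N) ∅ ∅ y ≤ ∑ y ∈ S0, (A * 1 : ℝ) :=
            sum_le_sum fun y _ => phi_le zero_le_one hu (card_fam_through A N y)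
        _ = r * A := by rw [sum_const, nsmul_eq_mul, hcard, mul_one]
        _ ≤ o * A := mul_le_mul_of_nonneg_right hro hA0.le
    linarith
  have hoN : (o : ℝ) / N ≤ 1 / 32 := by
    rw [div_le_div_iff₀ hN0 (by norm_num)]
    have h3 : (o : ℝ) ≤ m * (c - 1) := by
      rw [← h.hcθ]
      have : (c - 1) * (θ * m) ≤ (c - 1) * (1 * m) :=
        mul_le_mul_of_nonneg_left (mul_le_mul_of_nonneg_right h.hθ1.le hm0.le) (by linarith)
      linarith
    have h4 := h.hA
    have hW1 : 1 ≤ c ^ (k - 1) := one_le_pow₀ hc1.le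
    have h5 : 64 * (m * (c - 1)) ≤ 64 * (m * (c - 1)) * c ^ (k - 1) :=
      le_mul_of_one_le_right (mul_nonneg (by norm_num) (mul_nonneg hm0.le (by linarith))) hW1
    have h6 : (1 - θ) * (A : ℝ) ≤ A := by nlinarith [h.hθ0]
    have h7 : (A : ℝ) ≤ N := by rw [hNr]; nlinarith
    linarith
  have h3 : (A : ℝ) * N * (1 + -(o / N)) ≤ Phi c (fam A N) ∅ S0 := by
    have : (A : ℝ) * N * (1 + -(o / N)) = A * N - o * A := by field_simp; ring
    rw [this]; exact h1
  have hoN0 : 0 ≤ (o : ℝ) / N := by positivity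
  have hpos1 : (0 : ℝ) < 1 + -(o / N) := by linarith
  have hPpos : 0 < Phi c (fam A N) ∅ S0 := lt_of_lt_of_le (mul_pos hAN hpos1) h3
  have hlog : Real.log ((A : ℝ) * N) - 1 / 8 ≤ Real.log (Phi c (fam A N) ∅ S0) := by
    have g1 := log_ineq (δ := -((o : ℝ) / N)) (by linarith)
    have g2 : Real.log ((A : ℝ) * N) + Real.log (1 + -((o : ℝ) / N))
        ≤ Real.log (Phi c (fam A N) ∅ S0) := by
      rw [← Real.log_mul hAN.ne' hpos1.ne']
      exact Real.log_le_log (mul_pos hAN hpos1) h3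
    have g3 : ((o : ℝ) / N) ^ 2 ≤ 1 / 32 * (1 / 32) := by nlinarith
    nlinarith
  -- the potential of the opponent
  have hd := h.hd
  have hΦ2 : Phi d (lns S0) S0 ∅ ≤ o ^ 2 * (1 + m) := by
    have g1 : ∀ L ∈ lns S0, u d S0 ∅ L ≤ d ^ o := by
      intro L _
      unfold u
      split_ifs
      · exact pow_le_pow_right₀ hd ((card_filter_le _ _).trans (hcard ▸ hr))
      · positivity
    have g2 : (lns S0).card ≤ o ^ 2 := by
      unfold lns
      calc _ ≤ S0.offDiag.card := card_image_le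
        _ ≤ S0.card * S0.card := by rw [offDiag_card]; omega
        _ ≤ o * o := by rw [hcard]; exact Nat.mul_le_mul hr hr
        _ = o ^ 2 := by ring
    have g3 : d ^ o ≤ 1 + m := by
      rw [h.hdo]
      have : θ * m ≤ 1 * m := mul_le_mul_of_nonneg_right h.hθ1.le hm0.le
      linarith
    unfold Phi
    calc _ ≤ (lns S0).card • d ^ o := sum_le_card_nsmul _ _ _ g1
      _ = ((lns S0).card : ℝ) * d ^ o := nsmul_eq_mul _ _
      _ ≤ o ^ 2 * (1 + m) := by
          apply mul_le_mul _ g3 (by positivity) (by positivity)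
          exact_mod_cast g2
  have hμΦ2 : μ * Phi d (lns S0) S0 ∅ ≤ 1 / 8 := by
    have g1 : μ * Phi d (lns S0) S0 ∅ ≤ μ * (o ^ 2 * (1 + m)) :=
      mul_le_mul_of_nonneg_left hΦ2 h.hμ
    have hT : (1 : ℝ) ≤ T := by exact_mod_cast hT0
    have g2 : (2 : ℝ) * (o ^ 2 * (1 + m)) ≤ 2 * o ^ 2 * (1 + m) ^ 2 * T ^ 2 := by
      have g3 : (1 : ℝ) ≤ (1 + m) * T ^ 2 := by nlinarith
      have g4 : (0 : ℝ) ≤ 2 * (o ^ 2 * (1 + m)) := by positivity
      have g6 : (2 : ℝ) * (o : ℝ) ^ 2 * (1 + (m : ℝ)) ^ 2 * (T : ℝ) ^ 2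
          = 2 * ((o : ℝ) ^ 2 * (1 + (m : ℝ))) * ((1 + (m : ℝ)) * (T : ℝ) ^ 2) := by ring
      rw [g6]
      exact le_mul_of_one_le_right g4 g3
    have g5 := mul_le_mul_of_nonneg_left g2 h.hμ
    linarith
  refine ⟨?_, ?_⟩
  · have : (A : ℝ) * N * (1 / 2) ≤ A * N * (1 + -(o / N)) :=
      mul_le_mul_of_nonneg_left (by linarith) hAN.le
    linarith
  · have e : Psi k A c d μ ∅ S0 = Real.log (Phi c (fam A N) ∅ S0) - μ * Phi d (lns S0) S0 ∅ := rfl
    rw [e]
    linarith

/-- The opponent's stones after `t` rounds. -/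
lemma card_So (hp : Function.Injective p) (hr : r ≤ o) (t : ℕ) :
    (So (IM m o r) p ((m + o) * t + r)).card ≤ o * (t + 1) := by
  induction t with
  | zero =>
      have := So_block (I := IM m o r) (p := p) (a := 0) r (Nat.zero_le r)
        (fun i _ hi => not_IM_start hr hi)
      rw [show (m + o) * 0 + r = r by ring, this]
      have e : So (IM m o r) p 0 = ∅ := by simp [So]
      rw [e, empty_union, card_blk hp]
      omega
  | succ t ih =>
      have e : (m + o) * (t + 1) = (m + o) * t + (m + o) := by ring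
      have h1 := So_block (I := IM m o r) (p := p) (a := (m + o) * t + r + m)
        ((m + o) * (t + 1) + r) (by omega) (fun i h1 h2 => not_IM t hr h1 h2)
      have h2 := So_iblock (I := IM m o r) (p := p) (a := (m + o) * t + r)
        ((m + o) * t + r + m) (by omega) (fun i h1 h2 => by
          obtain ⟨j, rfl⟩ := Nat.exists_eq_add_of_le h1
          exact IM_own t hr (by omega))
      rw [h1, h2]
      refine (card_union_le _ _).trans ?_
      rw [card_blk hp]
      have : o * (t + 1 + 1) = o * (t + 1) + o := by ring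
      omega

/-- The invariant. -/
lemma inv (h : Par m o k A c d θ μ) (hp : Function.Injective p) (hr : r ≤ o)
    (hcons : ∀ n : ℕ, IM m o r n →
      p n = strat (IM m o r) k A c d μ ((List.range n).map p)) (hT0 : 1 ≤ T)
    (hT1 : μ * (2 * o ^ 2 * (1 + m) ^ 2 * T ^ 2) ≤ 1 / 4) :
    ∀ t : ℕ, t ≤ T → NoHit m o r k A p ((m + o) * t + r) →
      (A : ℝ) * (2 * k * A : ℕ) / 2 ≤ Phi c (fam A (2 * k * A))
        (Fo (IM m o r) p ((m + o) * t + r)) (So (IM m o r) p ((m + o) * t + r)) ∧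
      Real.log ((A : ℝ) * (2 * k * A : ℕ)) - 1 / 4
        + ((1 - θ) * (m * (c - 1)) / (8 * (2 * k * A : ℕ))
          - μ * (2 * o ^ 2 * (1 + m) ^ 2 * T)) * t
        ≤ Psi k A c d μ (Fo (IM m o r) p ((m + o) * t + r))
            (So (IM m o r) p ((m + o) * t + r)) := by
  classical
  have hc1 := h.c1
  have hk2 : (2 : ℝ) ≤ k := by exact_mod_cast h.hk
  have hm1 : (1 : ℝ) ≤ m := by exact_mod_cast h.hm
  have hm0 : (0 : ℝ) < m := by linarith
  have ho1 : (1 : ℝ) ≤ o := by exact_mod_cast h.ho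
  have h1θ : 0 < 1 - θ := by linarith [h.hθ1]
  have hA0 := h.A0
  have hAN : (0 : ℝ) < (A : ℝ) * (2 * k * A : ℕ) := by
    push_cast; positivity
  have hρ : 0 ≤ (1 - θ) * (m * (c - 1)) / (8 * (2 * k * A : ℕ)) := by
    apply div_nonneg
    · exact mul_nonneg h1θ.le (mul_nonneg hm0.le (by linarith))
    · positivity
  intro t
  induction t with
  | zero =>
      intro _ _
      obtain ⟨s1, s2⟩ := start h hp hr hT0 hT1
      rw [show (m + o) * 0 + r = r by ring]
      refine ⟨s1, ?_⟩
      push_cast at s2 ⊢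
      linarith
  | succ t ih =>
      intro htT hno
      have e : (m + o) * (t + 1) = (m + o) * t + (m + o) := by ring
      obtain ⟨ih1, ih2⟩ := ih (by omega) (hno.mono (by omega))
      obtain ⟨G, hG1, hG2, hG3, hG4⟩ := msteps h hp hr hcons t ih1 m (le_refl m)
        (hno.mono (by omega))
      set n := (m + o) * t + r + m with hn
      set n' := (m + o) * (t + 1) + r with hn'
      set Y := (Ico n n').image p with hY
      have hF' : Fo (IM m o r) p n' = Fo (IM m o r) p n :=
        Fo_block n' (by omega) (fun i h1 h2 => not_IM t hr h1 h2)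
      have hS' : So (IM m o r) p n' = So (IM m o r) p n ∪ Y :=
        So_block n' (by omega) (fun i h1 h2 => not_IM t hr h1 h2)
      have hYc : Y.card = o := by rw [hY, card_blk hp]; omega
      have hYS : Disjoint (So (IM m o r) p n) Y := disj_So hp n n'
      have hok := okk (p := p) (m := m) (o := o) (r := r) (A := A) h.hk n (hno.mono (by omega))
      have hcmp : ∀ y ∈ Y, m * fv k A c d μ (Fo (IM m o r) p n) (So (IM m o r) p n) y
          ≤ G + m ^ 2 * ((c - 1) ^ 2 * c ^ (k - 1) / (A * (2 * k * A : ℕ) / 2)) := by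
        intro y hy
        obtain ⟨i, hi, rfl⟩ := mem_image.mp hy
        exact hG4 _ (notMem_Fo hp (mem_Ico.mp hi).1) (notMem_So hp (mem_Ico.mp hi).1)
      obtain ⟨hpos, hob⟩ := oblock h hok hYS hYc hG2 hcmp
      have hcomb := comb h hG1
      rw [← hS'] at hpos hob
      rw [hF']
      have hcardS : (So (IM m o r) p n').card ≤ o * (t + 1 + 1) := card_So hp hr (t + 1)
      -- the loss
      have hd := h.hd
      have hdo : d ^ o ≤ 1 + m := by
        rw [h.hdo]
        have : θ * m ≤ 1 * m := mul_le_mul_of_nonneg_right h.hθ1.le hm0.le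
        linarith
      have hd2 : d ≤ 1 + m := by
        calc d = d ^ 1 := (pow_one d).symm
          _ ≤ d ^ o := pow_le_pow_right₀ hd h.ho
          _ ≤ 1 + m := hdo
      have hd4 : d ^ (o + 1) ≤ (1 + m) ^ 2 := by
        rw [pow_succ, sq]
        exact mul_le_mul hdo hd2 (by linarith) (by positivity)
      have htT' : ((t : ℝ) + 1) ≤ T := by exact_mod_cast htT
      have hT1' : (1 : ℝ) ≤ T := by exact_mod_cast hT0
      have hloss : μ * ((o * ((So (IM m o r) p n').card : ℝ)) * d ^ (o + 1))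
          ≤ μ * (2 * o ^ 2 * (1 + m) ^ 2 * T) := by
        apply mul_le_mul_of_nonneg_left _ h.hμ
        have h1 : ((So (IM m o r) p n').card : ℝ) ≤ o * (2 * T) := by
          have h2 : ((So (IM m o r) p n').card : ℝ) ≤ o * (t + 1 + 1) := by exact_mod_cast hcardS
          refine h2.trans (mul_le_mul_of_nonneg_left (by linarith) (by positivity))
        calc (o * ((So (IM m o r) p n').card : ℝ)) * d ^ (o + 1)
            ≤ (o * (o * (2 * T))) * (1 + m) ^ 2 := by
              apply mul_le_mul _ hd4 (by positivity) (by positivity)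
              exact mul_le_mul_of_nonneg_left h1 (by positivity)
          _ = 2 * o ^ 2 * (1 + m) ^ 2 * T := by ring
      have hnew : Real.log ((A : ℝ) * (2 * k * A : ℕ)) - 1 / 4
        + ((1 - θ) * (m * (c - 1)) / (8 * (2 * k * A : ℕ))
          - μ * (2 * o ^ 2 * (1 + m) ^ 2 * T)) * ((t + 1 : ℕ) : ℝ)
        ≤ Psi k A c d μ (Fo (IM m o r) p n) (So (IM m o r) p n') := by
        rw [show ((t + 1 : ℕ) : ℝ) = (t : ℝ) + 1 by push_cast; ring]
        linarith
      refine ⟨?_, hnew⟩
      apply log_half hAN hpos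
      have h1 : 0 ≤ μ * Phi d (lns (So (IM m o r) p n')) (So (IM m o r) p n')
          (Fo (IM m o r) p n) := mul_nonneg h.hμ (Phi_nonneg (by linarith) _ _ _)
      have h2 : μ * (2 * o ^ 2 * (1 + m) ^ 2 * T) * ((t + 1 : ℕ) : ℝ)
          ≤ μ * (2 * o ^ 2 * (1 + m) ^ 2 * T ^ 2) := by
        have h3 : ((t + 1 : ℕ) : ℝ) ≤ T := by exact_mod_cast htT
        have h4 : 0 ≤ μ * (2 * o ^ 2 * (1 + m) ^ 2 * T) := mul_nonneg h.hμ (by positivity)
        have := mul_le_mul_of_nonneg_left h3 h4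
        have e : μ * (2 * o ^ 2 * (1 + m) ^ 2 * T) * (T : ℝ)
            = μ * (2 * o ^ 2 * (1 + m) ^ 2 * T ^ 2) := by ring
        linarith
      have h5 : 0 ≤ (1 - θ) * (m * (c - 1)) / (8 * (2 * k * A : ℕ)) * ((t + 1 : ℕ) : ℝ) :=
        mul_nonneg hρ (by positivity)
      have h6 : ((1 - θ) * (m * (c - 1)) / (8 * (2 * k * A : ℕ))
            - μ * (2 * o ^ 2 * (1 + m) ^ 2 * T)) * ((t + 1 : ℕ) : ℝ)
          = (1 - θ) * (m * (c - 1)) / (8 * (2 * k * A : ℕ)) * ((t + 1 : ℕ) : ℝ)
            - μ * (2 * o ^ 2 * (1 + m) ^ 2 * T) * ((t + 1 : ℕ) : ℝ) := by ring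
      rw [h6] at hnew
      have e7 : Psi k A c d μ (Fo (IM m o r) p n) (So (IM m o r) p n')
          = Real.log (Phi c (fam A (2 * k * A)) (Fo (IM m o r) p n) (So (IM m o r) p n'))
            - μ * Phi d (lns (So (IM m o r) p n')) (So (IM m o r) p n') (Fo (IM m o r) p n) := rfl
      rw [e7] at hnew
      linarith

/-- The numerical consequence of the invariant. -/
lemma bound (h : Par m o k A c d θ μ) (hp : Function.Injective p) (hr : r ≤ o)
    (hcons : ∀ n : ℕ, IM m o r n →
      p n = strat (IM m o r) k A c d μ ((List.range n).map p)) (hT0 : 1 ≤ T)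
    (hT1 : μ * (2 * o ^ 2 * (1 + m) ^ 2 * T ^ 2) ≤ 1 / 4) (t : ℕ) (ht : t ≤ T)
    (hno : NoHit m o r k A p ((m + o) * t + r)) :
    (1 - θ) * (m * (c - 1)) / (8 * (2 * k * A : ℕ)) * t
      + μ * Phi d (lns (So (IM m o r) p ((m + o) * t + r))) (So (IM m o r) p ((m + o) * t + r))
        (Fo (IM m o r) p ((m + o) * t + r)) < k * Real.log c + 1 := by
  obtain ⟨h1, h2⟩ := inv h hp hr hcons hT0 hT1 t ht hno
  have hok := okk (p := p) (m := m) (o := o) (r := r) (A := A) h.hk _ hno
  have hu := hok.u_le h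
  have hc1 := h.c1
  have hk2 : (2 : ℝ) ≤ k := by exact_mod_cast h.hk
  have hA0 := h.A0
  have hAN : (0 : ℝ) < (A : ℝ) * (2 * k * A : ℕ) := by
    push_cast; positivity
  set F := Fo (IM m o r) p ((m + o) * t + r) with hF
  set S := So (IM m o r) p ((m + o) * t + r) with hS
  have h3 : Phi c (fam A (2 * k * A)) F S ≤ (A : ℝ) * (2 * k * A : ℕ) * c ^ (k - 1) := by
    unfold Phi
    calc _ ≤ (fam A (2 * k * A)).card • c ^ (k - 1) := sum_le_card_nsmul _ _ _ hu
      _ = _ := by rw [card_fam, nsmul_eq_mul]; push_cast; ring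
  have hpos : 0 < Phi c (fam A (2 * k * A)) F S := lt_of_lt_of_le (by positivity) h1
  have hcpow : (0 : ℝ) < c ^ (k - 1) := pow_pos (by linarith) _
  have h4 : Real.log (Phi c (fam A (2 * k * A)) F S)
      ≤ Real.log ((A : ℝ) * (2 * k * A : ℕ)) + ((k - 1 : ℕ) : ℝ) * Real.log c := by
    calc _ ≤ Real.log ((A : ℝ) * (2 * k * A : ℕ) * c ^ (k - 1)) := Real.log_le_log hpos h3
      _ = _ := by rw [Real.log_mul hAN.ne' hcpow.ne', Real.log_pow]
  have hlogc : 0 < Real.log c := Real.log_pos hc1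
  have h5 : ((k - 1 : ℕ) : ℝ) * Real.log c ≤ k * Real.log c := by
    apply mul_le_mul_of_nonneg_right _ hlogc.le
    exact_mod_cast Nat.sub_le k 1
  have h6 : μ * (2 * o ^ 2 * (1 + m) ^ 2 * T) * (t : ℝ) ≤ μ * (2 * o ^ 2 * (1 + m) ^ 2 * T ^ 2) := by
    have h3 : (t : ℝ) ≤ T := by exact_mod_cast ht
    have h4 : 0 ≤ μ * (2 * o ^ 2 * (1 + m) ^ 2 * T) := mul_nonneg h.hμ (by positivity)
    have := mul_le_mul_of_nonneg_left h3 h4
    have e : μ * (2 * o ^ 2 * (1 + m) ^ 2 * T) * (T : ℝ)
        = μ * (2 * o ^ 2 * (1 + m) ^ 2 * T ^ 2) := by ring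
    linarith
  have h7 : ((1 - θ) * (m * (c - 1)) / (8 * (2 * k * A : ℕ))
      - μ * (2 * o ^ 2 * (1 + m) ^ 2 * T)) * (t : ℝ)
      = (1 - θ) * (m * (c - 1)) / (8 * (2 * k * A : ℕ)) * t
        - μ * (2 * o ^ 2 * (1 + m) ^ 2 * T) * t := by ring
  rw [h7] at h2
  have e7 : Psi k A c d μ F S
      = Real.log (Phi c (fam A (2 * k * A)) F S) - μ * Phi d (lns S) S F := rfl
  rw [e7] at h2
  linarith

/-- An `l`-in-line of the opponent makes his potential large. -/
lemma phi2_large (hd : 1 ≤ d) (hl : 2 ≤ l) {F S : Finset (ℤ × ℤ)} {a b' c' : ℤ}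
    (hab : a ≠ 0 ∨ b' ≠ 0) (hcard : l ≤ (S.filter (fun z => a * z.1 + b' * z.2 = c')).card)
    (hF : ∀ z ∈ F, a * z.1 + b' * z.2 ≠ c') : d ^ l ≤ Phi d (lns S) S F := by
  classical
  set L : Set (ℤ × ℤ) := {z | a * z.1 + b' * z.2 = c'} with hL
  have hcard' : l ≤ (S.filter (fun z => z ∈ L)).card := hcard
  obtain ⟨s, hs, s', hs', hne⟩ := one_lt_card.mp (show 1 < (S.filter (fun z => z ∈ L)).card by omega)
  rw [mem_filter] at hs hs'
  have hLn : L = ln s s' := by
    ext z
    exact on_iff hab hne hs.2 hs'.2 z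
  have hmem : L ∈ lns S :=
    mem_lns.mpr ⟨hLn ▸ isLn_ln hne, s, hs.1, s', hs'.1, hne, hs.2, hs'.2⟩
  have hu : u d S F L = d ^ (S.filter (fun z => z ∈ L)).card := by
    unfold u; rw [if_pos (show ∀ z ∈ F, z ∉ L from hF)]; congr!
  calc d ^ l ≤ d ^ (S.filter (fun z => z ∈ L)).card := pow_le_pow_right₀ hd hcard'
    _ = u d S F L := hu.symm
    _ ≤ Phi d (lns S) S F := single_le_sum (f := fun L => u d S F L)
        (fun L _ => u_nonneg (by linarith) S F L) hmem

/-- `Wins I k p n`: among the moves `p 0, …, p n` the player who makes the moves in `I` has at least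
`k` points on a line on which the other player has no point. -/
def Wins (I : ℕ → Prop) [DecidablePred I] (k : ℕ) (p : ℕ → ℤ × ℤ) (n : ℕ) : Prop :=
  ∃ a b c : ℤ, (a ≠ 0 ∨ b ≠ 0) ∧
    k ≤ ((range (n + 1)).filter (fun i => I i ∧ a * (p i).1 + b * (p i).2 = c)).card ∧
    ∀ i ∈ range (n + 1), ¬ I i → a * (p i).1 + b * (p i).2 ≠ c

/-- **The strategy wins.** -/
theorem main (h : Par m o k A c d θ μ) (hp : Function.Injective p) (hr : r ≤ o)
    (hcons : ∀ n : ℕ, IM m o r n →
      p n = strat (IM m o r) k A c d μ ((List.range n).map p)) (hT0 : 1 ≤ T)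
    (hT1 : μ * (2 * o ^ 2 * (1 + m) ^ 2 * T ^ 2) ≤ 1 / 4)
    (hT2 : k * Real.log c + 1 ≤ (1 - θ) * (m * (c - 1)) / (8 * (2 * k * A : ℕ)) * T)
    (hl2 : 2 ≤ l) (hl : k * Real.log c + 1 ≤ μ * d ^ l) :
    ∃ t i, t < T ∧ i < m ∧ Wins (IM m o r) k p ((m + o) * t + r + i) ∧
      ∀ n < (m + o) * t + r + i, ¬ Wins (fun j => ¬ IM m o r j) l p n := by
  classical
  have hd0 : 0 ≤ d := by linarith [h.hd]
  have hex : ∃ n, IM m o r n ∧ ∃ L, Hit k A (Fo (IM m o r) p n) (So (IM m o r) p n) L ∧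
      n < (m + o) * T + r := by
    by_contra hc
    push Not at hc
    have hno : NoHit m o r k A p ((m + o) * T + r) := by
      rintro n hn hI ⟨L, hL⟩
      have := hc n hI L hL
      omega
    have h1 := bound h hp hr hcons hT0 hT1 T (le_refl T) hno
    have h2 : 0 ≤ μ * Phi d (lns (So (IM m o r) p ((m + o) * T + r)))
        (So (IM m o r) p ((m + o) * T + r)) (Fo (IM m o r) p ((m + o) * T + r)) :=
      mul_nonneg h.hμ (Phi_nonneg hd0 _ _ _)
    linarith
  obtain ⟨n, ⟨hI, L0, hL0, hnT⟩, hmin⟩ : ∃ n, (IM m o r n ∧ ∃ L,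
      Hit k A (Fo (IM m o r) p n) (So (IM m o r) p n) L ∧ n < (m + o) * T + r) ∧
      ∀ n' < n, ¬ (IM m o r n' ∧ ∃ L,
        Hit k A (Fo (IM m o r) p n') (So (IM m o r) p n') L ∧ n' < (m + o) * T + r) :=
    ⟨Nat.find hex, Nat.find_spec hex, fun n' hn' => Nat.find_min hex hn'⟩
  have hno : NoHit m o r k A p n := by
    rintro n' hn' hI' ⟨L, hL⟩
    exact hmin n' hn' ⟨hI', L, hL, by omega⟩
  obtain ⟨t, i, him, rfl⟩ := IM_eq hI
  have htT : t < T := by
    by_contra hc
    push Not at hc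
    have := Nat.mul_le_mul_left (m + o) hc
    omega
  refine ⟨t, i, htT, him, ?_, ?_⟩
  · -- the player completes
    obtain ⟨L, hL, hx⟩ := (mv_spec hcons hI).1 ⟨L0, hL0⟩
    obtain ⟨hLE, hLS, hLF⟩ := hL
    unfold fam at hLE
    obtain ⟨e, _, rfl⟩ := mem_image.mp hLE
    set n := (m + o) * t + r + i with hn
    refine ⟨-(e.1 : ℤ), 1, e.2, Or.inr one_ne_zero, ?_, ?_⟩
    · have hon : ∀ z : ℤ × ℤ, -(e.1 : ℤ) * z.1 + 1 * z.2 = e.2 ↔ z ∈ el e := by
        intro z
        change _ ↔ z.2 = e.1 * z.1 + e.2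
        constructor <;> intro h <;> linarith
      have h1 : ((Fo (IM m o r) p n).filter (fun z => z ∈ el e)).card
          = ((range n).filter (fun i => IM m o r i ∧
              -(e.1 : ℤ) * (p i).1 + 1 * (p i).2 = e.2)).card := by
        unfold Fo
        rw [filter_image, card_image_of_injective _ hp, filter_filter]
        congr 1
        apply filter_congr
        intro i _
        rw [hon]
      have h2 : (range (n + 1)).filter (fun i => IM m o r i ∧
              -(e.1 : ℤ) * (p i).1 + 1 * (p i).2 = e.2)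
          = insert n ((range n).filter (fun i => IM m o r i ∧
              -(e.1 : ℤ) * (p i).1 + 1 * (p i).2 = e.2)) := by
        rw [range_add_one, filter_insert, if_pos ⟨hI, (hon _).mpr hx⟩]
      rw [h2, card_insert_of_notMem (by simp), ← h1]
      have := h.hk
      omega
    · intro j hj hj0
      have hjn : j ≠ n := by rintro rfl; exact hj0 hI
      have hlt : j < n := by have := mem_range.mp hj; omega
      have : p j ∉ el e := hLS (p j) (by
        unfold So
        exact mem_image_of_mem p (mem_filter.mpr ⟨mem_range.mpr hlt, hj0⟩))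
      intro h'
      apply this
      change (p j).2 = e.1 * (p j).1 + e.2
      linarith
  · -- the opponent has not completed before
    rintro n' hn' ⟨a, b', c', hab, hcard, hoff⟩
    -- the next own move after `n'`
    have hex2 : ∃ j, n' < j ∧ IM m o r j := ⟨_, hn', hI⟩
    obtain ⟨j, ⟨hj1, hj2⟩, hj3⟩ : ∃ j, (n' < j ∧ IM m o r j) ∧
        ∀ j' < j, ¬ (n' < j' ∧ IM m o r j') :=
      ⟨Nat.find hex2, Nat.find_spec hex2, fun j' hj' => Nat.find_min hex2 hj'⟩
    have hjn : j ≤ (m + o) * t + r + i := by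
      by_contra hc
      push Not at hc
      exact hj3 _ hc ⟨hn', hI⟩
    have hFj : Fo (IM m o r) p j = Fo (IM m o r) p (n' + 1) :=
      Fo_block j (by omega) fun i h1 h2 hIi => hj3 i h2 ⟨by omega, hIi⟩
    obtain ⟨s, i', hi', rfl⟩ := IM_eq hj2
    have hsT : s ≤ T := by
      by_contra hc
      push Not at hc
      have := Nat.mul_le_mul_left (m + o) hc.le
      omega
    have hSs : So (IM m o r) p ((m + o) * s + r + i') = So (IM m o r) p ((m + o) * s + r) :=
      So_iblock _ (by omega) fun i'' h1 h2 => by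
        obtain ⟨j', rfl⟩ := Nat.exists_eq_add_of_le h1
        exact IM_own s hr (by omega)
    have hb := bound h hp hr hcons hT0 hT1 s hsT (hno.mono (by omega))
    have hcard' : l ≤ ((So (IM m o r) p ((m + o) * s + r + i')).filter
        (fun z => a * z.1 + b' * z.2 = c')).card := by
      refine hcard.trans ?_
      unfold So
      rw [filter_image, card_image_of_injective _ hp, filter_filter]
      apply card_le_card
      intro q hq
      obtain ⟨h1, h2⟩ := mem_filter.mp hq
      have h3 := mem_range.mp h1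
      exact mem_filter.mpr ⟨mem_range.mpr (by omega), h2⟩
    have hF : ∀ z ∈ Fo (IM m o r) p ((m + o) * s + r + i'), a * z.1 + b' * z.2 ≠ c' := by
      intro z hz
      rw [hFj] at hz
      unfold Fo at hz
      obtain ⟨q, hq, rfl⟩ := mem_image.mp hz
      obtain ⟨h1, h2⟩ := mem_filter.mp hq
      exact hoff q h1 (not_not.mpr h2)
    have hlarge := phi2_large h.hd hl2 hab hcard' hF
    rw [hSs] at hlarge
    have hanti : Phi d (lns (So (IM m o r) p ((m + o) * s + r))) (So (IM m o r) p ((m + o) * s + r))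
        (Fo (IM m o r) p ((m + o) * s + r + i'))
        ≤ Phi d (lns (So (IM m o r) p ((m + o) * s + r))) (So (IM m o r) p ((m + o) * s + r))
        (Fo (IM m o r) p ((m + o) * s + r)) := Phi_anti hd0 (Fo_mono (by omega))
    have h1 := mul_le_mul_of_nonneg_left (hlarge.trans hanti) h.hμ
    have h2 : 0 ≤ (1 - θ) * (m * (c - 1)) / (8 * (2 * k * A : ℕ)) * (s : ℝ) := by
      apply mul_nonneg
      · apply div_nonneg
        · exact mul_nonneg (by linarith [h.hθ1]) (mul_nonneg (by positivity) (by linarith [h.c1]))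
        · positivity
      · positivity
    linarith

end Pool.Agent.H89.KapH
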