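import Pool.Agent.H89.KapH.Steps

/-!
# Kaplansky's line game with bias `(m : o)`: plays and the strategy
-/

set_option autoImplicit false

open Finset

namespace Pool.Agent.H89.KapH

open Pool.Agent.H89.Kap Pool.Agent.H89.KapG

section plays

variable (I : ℕ → Prop) [DecidablePred I] (p : ℕ → ℤ × ℤ)

/-- The stones of the player making the moves in `I`, after `n` moves. -/
def Fo (n : ℕ) : Finset (ℤ × ℤ) := ((range n).filter (fun i => I i)).image p

/-- The stones of the opponent after `n` moves. -/
def So (n : ℕ) : Finset (ℤ × ℤ) := ((range n).filter (fun i => ¬ I i)).image p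

variable {I p}

lemma Fo_pos {n : ℕ} (h : I n) : Fo I p (n + 1) = insert (p n) (Fo I p n) := by
  unfold Fo
  rw [range_add_one, filter_insert, if_pos h, image_insert]

lemma Fo_neg {n : ℕ} (h : ¬ I n) : Fo I p (n + 1) = Fo I p n := by
  unfold Fo
  rw [range_add_one, filter_insert, if_neg h]

lemma So_pos {n : ℕ} (h : I n) : So I p (n + 1) = So I p n := by
  unfold So
  rw [range_add_one, filter_insert, if_neg (not_not.mpr h)]

lemma So_neg {n : ℕ} (h : ¬ I n) : So I p (n + 1) = insert (p n) (So I p n) := by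
  unfold So
  rw [range_add_one, filter_insert, if_pos h, image_insert]

lemma Fo_mono {n n' : ℕ} (h : n ≤ n') : Fo I p n ⊆ Fo I p n' := by
  unfold Fo
  exact image_subset_image (filter_subset_filter _ (range_mono h))

lemma So_mono {n n' : ℕ} (h : n ≤ n') : So I p n ⊆ So I p n' := by
  unfold So
  exact image_subset_image (filter_subset_filter _ (range_mono h))

lemma Fo_block {a : ℕ} : ∀ b : ℕ, a ≤ b → (∀ i, a ≤ i → i < b → ¬ I i) → Fo I p b = Fo I p a := by
  intro b hab
  induction b, hab using Nat.le_induction with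
  | base => intro _; rfl
  | succ b hb ih =>
      intro h
      rw [Fo_neg (h b hb (Nat.lt_succ_self b))]
      exact ih fun i h1 h2 => h i h1 (by omega)

lemma So_block {a : ℕ} : ∀ b : ℕ, a ≤ b → (∀ i, a ≤ i → i < b → ¬ I i) →
    So I p b = So I p a ∪ (Ico a b).image p := by
  intro b hab
  induction b, hab using Nat.le_induction with
  | base => intro _; simp
  | succ b hb ih =>
      intro h
      rw [So_neg (h b hb (Nat.lt_succ_self b)), ih fun i h1 h2 => h i h1 (by omega)]
      have : Ico a (b + 1) = insert b (Ico a b) := by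
        ext i; simp only [mem_Ico, mem_insert]; omega
      rw [this, image_insert, union_insert]

lemma So_iblock {a : ℕ} : ∀ b : ℕ, a ≤ b → (∀ i, a ≤ i → i < b → I i) → So I p b = So I p a := by
  intro b hab
  induction b, hab using Nat.le_induction with
  | base => intro _; rfl
  | succ b hb ih =>
      intro h
      rw [So_pos (h b hb (Nat.lt_succ_self b))]
      exact ih fun i h1 h2 => h i h1 (by omega)

lemma notMem_Fo (hp : Function.Injective p) {n n' : ℕ} (h : n ≤ n') : p n' ∉ Fo I p n := by
  unfold Fo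
  simp only [mem_image, mem_filter, mem_range, not_exists, not_and, and_imp]
  intro i hi _ he
  have := hp he
  omega

lemma notMem_So (hp : Function.Injective p) {n n' : ℕ} (h : n ≤ n') : p n' ∉ So I p n := by
  unfold So
  simp only [mem_image, mem_filter, mem_range, not_exists, not_and, and_imp]
  intro i hi _ he
  have := hp he
  omega

lemma disj_So (hp : Function.Injective p) (a b : ℕ) : Disjoint (So I p a) ((Ico a b).image p) := by
  rw [Finset.disjoint_right]
  intro z hz
  obtain ⟨i, hi, rfl⟩ := mem_image.mp hz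
  exact notMem_So hp (mem_Ico.mp hi).1

lemma card_blk (hp : Function.Injective p) (a b : ℕ) : ((Ico a b).image p).card = b - a := by
  rw [card_image_of_injective _ hp, Nat.card_Ico]

/-! ### Histories -/

variable (I) in
/-- The stones read off a history. -/
def hF (h : List (ℤ × ℤ)) : Finset (ℤ × ℤ) := Fo I (fun i => h.getD i 0) h.length

variable (I) in
/-- The stones of the opponent read off a history. -/
def hS (h : List (ℤ × ℤ)) : Finset (ℤ × ℤ) := So I (fun i => h.getD i 0) h.length

lemma getD_map_range (p : ℕ → ℤ × ℤ) {n i : ℕ} (hi : i < n) :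
    ((List.range n).map p).getD i 0 = p i := by
  rw [List.getD_eq_getElem?_getD, List.getElem?_map, List.getElem?_range hi]
  rfl

lemma hF_map (n : ℕ) : hF I ((List.range n).map p) = Fo I p n := by
  unfold hF Fo
  rw [List.length_map, List.length_range]
  apply image_congr
  intro i hi
  have : i ∈ (range n).filter (fun i => I i) := hi
  exact getD_map_range p (mem_range.mp (mem_filter.mp this).1)

lemma hS_map (n : ℕ) : hS I ((List.range n).map p) = So I p n := by
  unfold hS So
  rw [List.length_map, List.length_range]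
  apply image_congr
  intro i hi
  have : i ∈ (range n).filter (fun i => ¬ I i) := hi
  exact getD_map_range p (mem_range.mp (mem_filter.mp this).1)

lemma mem_hist {h : List (ℤ × ℤ)} {q : ℤ × ℤ} (h1 : q ∉ hF I h) (h2 : q ∉ hS I h) : q ∉ h := by
  intro hq
  obtain ⟨i, hi, rfl⟩ := List.getElem_of_mem hq
  have e : h.getD i 0 = h[i] := by
    rw [List.getD_eq_getElem?_getD, List.getElem?_eq_getElem hi]; rfl
  by_cases hr : I i
  · apply h1
    unfold hF Fo
    rw [mem_image]
    exact ⟨i, mem_filter.mpr ⟨mem_range.mpr hi, hr⟩, e⟩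
  · apply h2
    unfold hS So
    rw [mem_image]
    exact ⟨i, mem_filter.mpr ⟨mem_range.mpr hi, hr⟩, e⟩

end plays

/-! ### The strategy -/

lemma exists_fmax (k A : ℕ) (c d μ : ℝ) (F S : Finset (ℤ × ℤ)) :
    ∃ x, x ∉ F ∧ x ∉ S ∧ ∀ y, y ∉ F → y ∉ S → fv k A c d μ F S y ≤ fv k A c d μ F S x := by
  classical
  set E := fam A (2 * k * A) with hE
  set w : Set (ℤ × ℤ) → ℝ := fun L =>
    (if L ∈ E then (c - 1) / Phi c E F S * u c F S L else 0)
      + (if L ∈ lns S then μ * u d S F L else 0) with hw
  obtain ⟨x, hx, hmax⟩ := exists_max (E := E ∪ lns S) w (F ∪ S)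
  have key : ∀ v, fv k A c d μ F S v = ∑ L ∈ E ∪ lns S, if v ∈ L then w L else 0 := by
    intro v
    have e1 : ∑ L ∈ E ∪ lns S, (if v ∈ L then w L else 0)
        = ∑ L ∈ E ∪ lns S, (if L ∈ E then
            (if v ∈ L then (c - 1) / Phi c E F S * u c F S L else 0) else 0)
          + ∑ L ∈ E ∪ lns S, (if L ∈ lns S then
            (if v ∈ L then μ * u d S F L else 0) else 0) := by
      rw [← sum_add_distrib]
      refine sum_congr rfl fun L _ => ?_
      rw [hw]
      by_cases hv : v ∈ L
      · simp only [if_pos hv]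
      · simp only [if_neg hv, ite_self, add_zero]
    have f1 : (E ∪ lns S).filter (fun L => L ∈ E) = E := by
      ext L; simp only [mem_filter, mem_union]; tauto
    have f2 : (E ∪ lns S).filter (fun L => L ∈ lns S) = lns S := by
      ext L; simp only [mem_filter, mem_union]; tauto
    have g1 : ∑ L ∈ E ∪ lns S, (if L ∈ E then
            (if v ∈ L then (c - 1) / Phi c E F S * u c F S L else 0) else 0)
        = ∑ L ∈ E, (if v ∈ L then (c - 1) / Phi c E F S * u c F S L else 0) :=
      (sum_filter (fun L => L ∈ E) _).symm.trans (by rw [f1])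
    have g2 : ∑ L ∈ E ∪ lns S, (if L ∈ lns S then
            (if v ∈ L then μ * u d S F L else 0) else 0)
        = ∑ L ∈ lns S, (if v ∈ L then μ * u d S F L else 0) :=
      (sum_filter (fun L => L ∈ lns S) _).symm.trans (by rw [f2])
    rw [e1, g1, g2]
    unfold fv phi
    rw [← hE, mul_div_right_comm, mul_sum, mul_sum]
    congr 1
    · refine sum_congr rfl fun L _ => ?_
      split_ifs
      · rfl
      · ring
    · refine sum_congr rfl fun L _ => ?_
      split_ifs
      · rfl
      · ring
  refine ⟨x, fun h => hx (mem_union_left _ h), fun h => hx (mem_union_right _ h), ?_⟩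
  intro y h1 h2
  rw [key, key]
  refine hmax y ?_
  intro h
  rcases mem_union.mp h with h | h
  · exact h1 h
  · exact h2 h

open Classical in
/-- There is a free line of the family with at least `k - 1` own stones. -/
def Hit (k A : ℕ) (F S : Finset (ℤ × ℤ)) (L : Set (ℤ × ℤ)) : Prop :=
  L ∈ fam A (2 * k * A) ∧ (∀ s ∈ S, s ∉ L) ∧ k - 1 ≤ (F.filter (fun z => z ∈ L)).card

lemma exists_mv (k A : ℕ) (c d μ : ℝ) (F S : Finset (ℤ × ℤ)) :
    ∃ x, x ∉ F ∧ x ∉ S ∧ ((∃ L, Hit k A F S L) → ∃ L, Hit k A F S L ∧ x ∈ L) ∧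
      ((¬ ∃ L, Hit k A F S L) →
        ∀ y, y ∉ F → y ∉ S → fv k A c d μ F S y ≤ fv k A c d μ F S x) := by
  by_cases h : ∃ L, Hit k A F S L
  · obtain ⟨L, hL⟩ := h
    obtain ⟨q, hq, hqF⟩ := (isLn_fam hL.1).exists_fresh F
    exact ⟨q, hqF, fun hS => hL.2.1 q hS hq, fun _ => ⟨L, hL, hq⟩, fun hn => absurd ⟨L, hL⟩ hn⟩
  · obtain ⟨x, h1, h2, h3⟩ := exists_fmax k A c d μ F S
    exact ⟨x, h1, h2, fun h' => absurd h' h, fun _ => h3⟩

/-- The move of the player. -/
noncomputable def mv (k A : ℕ) (c d μ : ℝ) (F S : Finset (ℤ × ℤ)) : ℤ × ℤ :=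
  (exists_mv k A c d μ F S).choose

/-- The strategy of the player making the moves in `I`. -/
noncomputable def strat (I : ℕ → Prop) [DecidablePred I] (k A : ℕ) (c d μ : ℝ)
    (h : List (ℤ × ℤ)) : ℤ × ℤ := mv k A c d μ (hF I h) (hS I h)

lemma strat_notMem (I : ℕ → Prop) [DecidablePred I] (k A : ℕ) (c d μ : ℝ) (h : List (ℤ × ℤ)) :
    strat I k A c d μ h ∉ h :=
  mem_hist (exists_mv k A c d μ (hF I h) (hS I h)).choose_spec.1
    (exists_mv k A c d μ (hF I h) (hS I h)).choose_spec.2.1

/-- The moves of the player with `m` stones per turn, if the opponent starts with `r ≤ o` stones. -/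
def IM (m o r n : ℕ) : Prop := r ≤ n % (m + o) ∧ n % (m + o) < r + m

instance (m o r : ℕ) : DecidablePred (IM m o r) := fun n => by unfold IM; infer_instance

lemma IM_own {m o r i : ℕ} (t : ℕ) (hr : r ≤ o) (hi : i < m) : IM m o r ((m + o) * t + r + i) := by
  unfold IM
  have : ((m + o) * t + r + i) % (m + o) = r + i := by
    rw [show (m + o) * t + r + i = (r + i) + (m + o) * t by ring, Nat.add_mul_mod_self_left,
      Nat.mod_eq_of_lt (by omega)]
  omega

lemma not_IM {m o r i : ℕ} (t : ℕ) (hr : r ≤ o) (h1 : (m + o) * t + r + m ≤ i)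
    (h2 : i < (m + o) * (t + 1) + r) : ¬ IM m o r i := by
  unfold IM
  obtain ⟨j, rfl⟩ := Nat.exists_eq_add_of_le h1
  have e : (m + o) * (t + 1) = (m + o) * t + (m + o) := by ring
  have hj : j < o := by omega
  rcases Nat.lt_or_ge (r + m + j) (m + o) with h | h
  · have : ((m + o) * t + r + m + j) % (m + o) = r + m + j := by
      rw [show (m + o) * t + r + m + j = (r + m + j) + (m + o) * t by ring,
        Nat.add_mul_mod_self_left, Nat.mod_eq_of_lt h]
    omega
  · obtain ⟨s, hs⟩ := Nat.exists_eq_add_of_le h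
    have : ((m + o) * t + r + m + j) % (m + o) = s := by
      rw [show (m + o) * t + r + m + j = (m + o) * t + (r + m + j) by ring, hs,
        show (m + o) * t + (m + o + s) = s + (m + o) * (t + 1) by ring,
        Nat.add_mul_mod_self_left, Nat.mod_eq_of_lt (by omega)]
    omega

lemma IM_eq {m o r n : ℕ} (h : IM m o r n) :
    ∃ t i, i < m ∧ n = (m + o) * t + r + i := by
  obtain ⟨h1, h2⟩ := h
  refine ⟨n / (m + o), n % (m + o) - r, by omega, ?_⟩
  have := Nat.div_add_mod n (m + o)
  omega

lemma not_IM_start {m o r i : ℕ} (hr : r ≤ o) (h : i < r) : ¬ IM m o r i := by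
  unfold IM
  rw [Nat.mod_eq_of_lt (by omega)]
  omega

end Pool.Agent.H89.KapH
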