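import Pool.Agent.H89.KapG.Pot

/-!
# Kaplansky's line game with bias `(m : o)`: single stones and blocks of stones
-/

set_option autoImplicit false

open Finset

namespace Pool.Agent.H89.KapH

open Pool.Agent.H89.Kap Pool.Agent.H89.KapG

/-- An own stone and the potential of the opponent. -/
lemma Phi_insert_opp {d : ℝ} {E : Finset (Set (ℤ × ℤ))} {F S : Finset (ℤ × ℤ)} {x : ℤ × ℤ} :
    Phi d E S (insert x F) = Phi d E S F - phi d E S F x := by
  classical
  unfold Phi phi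
  rw [← sum_sub_distrib]
  refine sum_congr rfl fun L _ => ?_
  by_cases hx : x ∈ L
  · rw [if_pos hx, sub_self]
    unfold u
    rw [if_neg]
    push Not
    exact ⟨x, mem_insert_self x F, hx⟩
  · rw [if_neg hx, sub_zero]
    unfold u
    by_cases hF : ∀ s ∈ F, s ∉ L
    · rw [if_pos hF, if_pos]
      intro s hs
      rcases mem_insert.mp hs with rfl | hs
      · exact hx
      · exact hF s hs
    · rw [if_neg hF, if_neg]
      push Not at hF ⊢
      obtain ⟨s, hs, hsL⟩ := hF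
      exact ⟨s, mem_insert_of_mem hs, hsL⟩

lemma u_anti {d : ℝ} (hd : 0 ≤ d) {S F F' : Finset (ℤ × ℤ)} (h : F ⊆ F') (L : Set (ℤ × ℤ)) :
    u d S F' L ≤ u d S F L := by
  unfold u
  by_cases hF' : ∀ s ∈ F', s ∉ L
  · rw [if_pos hF', if_pos (fun s hs => hF' s (h hs))]
  · rw [if_neg hF']
    split_ifs
    · positivity
    · exact le_refl _

lemma phi_anti {d : ℝ} (hd : 0 ≤ d) {E : Finset (Set (ℤ × ℤ))} {S F F' : Finset (ℤ × ℤ)}
    (h : F ⊆ F') (v : ℤ × ℤ) : phi d E S F' v ≤ phi d E S F v := by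
  classical
  unfold phi
  refine sum_le_sum fun L _ => ?_
  split_ifs
  · exact u_anti hd h L
  · exact le_refl _

lemma Phi_anti {d : ℝ} (hd : 0 ≤ d) {E : Finset (Set (ℤ × ℤ))} {S F F' : Finset (ℤ × ℤ)}
    (h : F ⊆ F') : Phi d E S F' ≤ Phi d E S F := by
  unfold Phi
  exact sum_le_sum fun L _ => u_anti hd h L

/-- An own stone raises the potential of another point by little. -/
lemma phi_insert_le {c W : ℝ} (hc : 1 ≤ c) (hW : 0 ≤ W) {E : Finset (Set (ℤ × ℤ))}
    (hE : ∀ L ∈ E, IsLn L) {F S : Finset (ℤ × ℤ)} (hu : ∀ L ∈ E, u c F S L ≤ W) {x y : ℤ × ℤ}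
    (hxF : x ∉ F) (hxy : x ≠ y) :
    phi c E (insert x F) S y ≤ phi c E F S y + (c - 1) * W := by
  classical
  have h3 : phi c E (insert x F) S y = phi c E F S y + (c - 1) *
      ∑ L ∈ E, (if y ∈ L then (if x ∈ L then u c F S L else 0) else 0) := by
    unfold phi
    rw [mul_sum, ← sum_add_distrib]
    refine sum_congr rfl fun L _ => ?_
    by_cases hyL : y ∈ L
    · rw [if_pos hyL, if_pos hyL, if_pos hyL, u_insert hxF]
    · rw [if_neg hyL, if_neg hyL, if_neg hyL]; ring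
  rw [h3]
  have := cross hW hE hu hxy
  have h4 : 0 ≤ c - 1 := by linarith
  nlinarith

/-- A block of stones of the opponent and the own potential. -/
lemma block1 {c : ℝ} (hc : 0 ≤ c) {E : Finset (Set (ℤ × ℤ))} (F S Y : Finset (ℤ × ℤ)) :
    Phi c E F S - ∑ y ∈ Y, phi c E F S y ≤ Phi c E F (S ∪ Y) := by
  classical
  unfold Phi phi
  rw [sum_comm, ← sum_sub_distrib]
  exact sum_le_sum fun L _ => u_union hc F S Y L

open Classical in
/-- The contribution of an old line to the potential of the opponent. -/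
lemma old_line {d τ : ℝ} (hd : 1 ≤ d) {o : ℕ} (ho : 1 ≤ o) (hτ : d ^ o = 1 + τ)
    {F S Y : Finset (ℤ × ℤ)} (hcard : Y.card = o) (hSY : Disjoint S Y) (L : Set (ℤ × ℤ)) :
    u d (S ∪ Y) F L ≤ u d S F L + (τ / o) * ∑ y ∈ Y, (if y ∈ L then u d S F L else 0) := by
  have hd0 : 0 ≤ d := by linarith
  have hb0 : (0 : ℝ) < o := by exact_mod_cast ho
  have hθ0 : 0 ≤ τ := by
    have : (1 : ℝ) ≤ d ^ o := one_le_pow₀ hd
    linarith
  have hsum : ∑ y ∈ Y, (if y ∈ L then u d S F L else 0)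
      = ((Y.filter (fun z => z ∈ L)).card : ℝ) * u d S F L := by
    rw [← sum_filter, sum_const, nsmul_eq_mul]
  rw [hsum]
  by_cases hF : ∀ s ∈ F, s ∉ L
  · have h1 : u d S F L = d ^ (S.filter (fun z => z ∈ L)).card := by
      unfold u; rw [if_pos hF]
    have h2 : u d (S ∪ Y) F L
        = d ^ (S.filter (fun z => z ∈ L)).card * d ^ (Y.filter (fun z => z ∈ L)).card := by
      unfold u
      rw [if_pos hF, filter_union, card_union_of_disjoint, pow_add]
      exact disjoint_filter_filter hSY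
    have h3 : (Y.filter (fun z => z ∈ L)).card ≤ o := hcard ▸ card_filter_le _ _
    have h4 := pow_conv hd (Y.filter (fun z => z ∈ L)).card o h3
    rw [h1, h2]
    set m := (S.filter (fun z => z ∈ L)).card
    set j := (Y.filter (fun z => z ∈ L)).card
    have h5 : d ^ j ≤ 1 + τ / o * j := by
      have : d ^ j - 1 ≤ (j * (d ^ o - 1)) / o := by
        rw [le_div_iff₀ hb0]; linarith
      rw [hτ] at this
      have e : (j * (1 + τ - 1)) / o = τ / o * j := by ring
      linarith [e ▸ this]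
    have h6 : 0 ≤ d ^ m := by positivity
    nlinarith
  · have h1 : u d S F L = 0 := by unfold u; rw [if_neg hF]
    have h2 : u d (S ∪ Y) F L = 0 := by unfold u; rw [if_neg hF]
    rw [h1, h2]
    simp

/-- A block of stones of the opponent and his potential. -/
lemma block2 {d τ : ℝ} (hd : 1 ≤ d) {o : ℕ} (ho : 1 ≤ o) (hτ : d ^ o = 1 + τ)
    {F S Y : Finset (ℤ × ℤ)} (hcard : Y.card = o) (hSY : Disjoint S Y) :
    Phi d (lns (S ∪ Y)) (S ∪ Y) F ≤ Phi d (lns S) S F
      + (τ / o) * ∑ y ∈ Y, phi d (lns S) S F y + (o * (S ∪ Y).card) * d ^ (o + 1) := by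
  classical
  have hd0 : 0 ≤ d := by linarith
  have hsub : lns S ⊆ lns (S ∪ Y) := by
    intro L hL
    rw [mem_lns] at hL ⊢
    obtain ⟨h1, s, hs, s', hs', h⟩ := hL
    exact ⟨h1, s, mem_union_left _ hs, s', mem_union_left _ hs', h⟩
  have hsplit : Phi d (lns (S ∪ Y)) (S ∪ Y) F
      = ∑ L ∈ lns (S ∪ Y) \ lns S, u d (S ∪ Y) F L + ∑ L ∈ lns S, u d (S ∪ Y) F L := by
    unfold Phi
    rw [← sum_sdiff hsub]
  have hold : ∑ L ∈ lns S, u d (S ∪ Y) F L ≤ Phi d (lns S) S F
      + (τ / o) * ∑ y ∈ Y, phi d (lns S) S F y := by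
    unfold Phi phi
    rw [sum_comm, mul_sum, ← sum_add_distrib]
    exact sum_le_sum fun L _ => old_line hd ho hτ hcard hSY L
  have hcardn : (lns (S ∪ Y) \ lns S).card ≤ o * (S ∪ Y).card := by
    have hs : lns (S ∪ Y) \ lns S ⊆ (Y ×ˢ (S ∪ Y)).image (fun e => ln e.1 e.2) := by
      intro L hL
      obtain ⟨h1, h2⟩ := mem_sdiff.mp hL
      obtain ⟨h0, s, hs, s', hs', hne, hsL, hsL'⟩ := mem_lns.mp h1
      rcases mem_union.mp hs with hS | hS
      · rcases mem_union.mp hs' with hS' | hS'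
        · exact absurd (mem_lns.mpr ⟨h0, s, hS, s', hS', hne, hsL, hsL'⟩) h2
        · exact mem_image.mpr ⟨(s', s), mem_product.mpr ⟨hS', hs⟩, (h0.eq hne.symm hsL' hsL).symm⟩
      · exact mem_image.mpr ⟨(s, s'), mem_product.mpr ⟨hS, hs'⟩, (h0.eq hne hsL hsL').symm⟩
    calc _ ≤ _ := card_le_card hs
      _ ≤ (Y ×ˢ (S ∪ Y)).card := card_image_le
      _ = o * (S ∪ Y).card := by rw [card_product, hcard]
  have hnew : ∑ L ∈ lns (S ∪ Y) \ lns S, u d (S ∪ Y) F L
      ≤ (o * (S ∪ Y).card) * d ^ (o + 1) := by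
    have h1 : ∀ L ∈ lns (S ∪ Y) \ lns S, u d (S ∪ Y) F L ≤ d ^ (o + 1) := by
      intro L hL
      obtain ⟨h1, h2⟩ := mem_sdiff.mp hL
      obtain ⟨h0, _⟩ := mem_lns.mp h1
      unfold u
      split_ifs
      · apply pow_le_pow_right₀ hd
        have a1 := card_inter_le_one h0 h2
        have a2 : (Y.filter (fun z => z ∈ L)).card ≤ o := hcard ▸ card_filter_le _ _
        rw [filter_union]
        have a3 := card_union_le (S.filter (fun z => z ∈ L)) (Y.filter (fun z => z ∈ L))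
        omega
      · positivity
    calc _ ≤ (lns (S ∪ Y) \ lns S).card • d ^ (o + 1) := sum_le_card_nsmul _ _ _ h1
      _ = ((lns (S ∪ Y) \ lns S).card : ℝ) * d ^ (o + 1) := nsmul_eq_mul _ _
      _ ≤ _ := by
          apply mul_le_mul_of_nonneg_right _ (by positivity)
          exact_mod_cast hcardn
  linarith

end Pool.Agent.H89.KapH
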