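import Pool.Agent.H89.KapH.Pot

/-!
# Kaplansky's line game with bias `(m : o)`: the two kinds of steps
-/

set_option autoImplicit false

open Finset

namespace Pool.Agent.H89.KapH

open Pool.Agent.H89.Kap Pool.Agent.H89.KapG

lemma log_ineq {δ : ℝ} (h : -(1 / 2) ≤ δ) : δ - 2 * δ ^ 2 ≤ Real.log (1 + δ) := by
  have h0 : 0 < 1 + δ := by linarith
  have h1 := Real.one_sub_inv_le_log_of_pos h0
  have h2 : δ - 2 * δ ^ 2 ≤ 1 - (1 + δ)⁻¹ := by
    have e : 1 - (1 + δ)⁻¹ - (δ - 2 * δ ^ 2) = δ ^ 2 * (1 + 2 * δ) / (1 + δ) := by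
      field_simp; ring
    have : 0 ≤ δ ^ 2 * (1 + 2 * δ) / (1 + δ) :=
      div_nonneg (mul_nonneg (sq_nonneg _) (by linarith)) h0.le
    linarith
  linarith

/-- The numerical hypotheses. -/
structure Par (m o k A : ℕ) (c d θ μ : ℝ) : Prop where
  hm : 1 ≤ m
  ho : 1 ≤ o
  hk : 2 ≤ k
  hθ0 : 0 < θ
  hθ1 : θ < 1
  hcθ : (c - 1) * (θ * m) = o
  hd : 1 ≤ d
  hdo : d ^ o = 1 + θ * m
  hA : 64 * (m * (c - 1)) * c ^ (k - 1) ≤ (1 - θ) * A
  hμ : 0 ≤ μ

variable {m o k A : ℕ} {c d θ μ : ℝ}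

lemma Par.c1 (h : Par m o k A c d θ μ) : 1 < c := by
  have h1 : (1 : ℝ) ≤ o := by exact_mod_cast h.ho
  have h4 : (1 : ℝ) ≤ m := by exact_mod_cast h.hm
  have h2 := h.hcθ
  have h3 : 0 < θ * m := mul_pos h.hθ0 (by linarith)
  by_contra hc
  push Not at hc
  nlinarith

lemma Par.A0 (h : Par m o k A c d θ μ) : (0 : ℝ) < A := by
  have h1 := h.hA
  have hc1 := h.c1
  have h4 : (1 : ℝ) ≤ m := by exact_mod_cast h.hm
  have h1θ : 0 < 1 - θ := by linarith [h.hθ1]
  have hW : 0 < c ^ (k - 1) := pow_pos (by linarith) _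
  have h5 : 0 < 64 * (m * (c - 1)) * c ^ (k - 1) :=
    mul_pos (mul_pos (by norm_num) (mul_pos (by linarith) (by linarith))) hW
  by_contra hn
  push Not at hn
  nlinarith

/-- The function which the player maximises. -/
noncomputable def fv (k A : ℕ) (c d μ : ℝ) (F S : Finset (ℤ × ℤ)) (v : ℤ × ℤ) : ℝ :=
  (c - 1) * phi c (fam A (2 * k * A)) F S v / Phi c (fam A (2 * k * A)) F S
    + μ * phi d (lns S) S F v

/-- The combined potential. -/
noncomputable def Psi (k A : ℕ) (c d μ : ℝ) (F S : Finset (ℤ × ℤ)) : ℝ :=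
  Real.log (Phi c (fam A (2 * k * A)) F S) - μ * Phi d (lns S) S F

open Classical in
/-- At most `j` own stones on the free lines of the family. -/
def OkJ (k A j : ℕ) (F S : Finset (ℤ × ℤ)) : Prop :=
  ∀ L ∈ fam A (2 * k * A), (∀ s ∈ S, s ∉ L) → (F.filter (fun z => z ∈ L)).card ≤ j

lemma OkJ.u_le (h : Par m o k A c d θ μ) {F S : Finset (ℤ × ℤ)} (hok : OkJ k A (k - 1) F S) :
    ∀ L ∈ fam A (2 * k * A), u c F S L ≤ c ^ (k - 1) := by
  intro L hL
  have hc1 := h.c1
  unfold u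
  split_ifs with hS
  · exact pow_le_pow_right₀ hc1.le (hok L hL hS)
  · exact pow_nonneg (by linarith) _

/-- One own stone. -/
lemma mstep (h : Par m o k A c d θ μ) {F S : Finset (ℤ × ℤ)} {x : ℤ × ℤ}
    (hok : OkJ k A (k - 1) F S) (hxF : x ∉ F)
    (hmax : ∀ y, y ∉ F → y ∉ S → fv k A c d μ F S y ≤ fv k A c d μ F S x)
    (hP : (A : ℝ) * (2 * k * A : ℕ) / 2 ≤ Phi c (fam A (2 * k * A)) F S) :
    Phi c (fam A (2 * k * A)) F S ≤ Phi c (fam A (2 * k * A)) (insert x F) S ∧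
    (c - 1) / (4 * (2 * k * A : ℕ)) ≤ fv k A c d μ F S x ∧
    Psi k A c d μ F S + (1 - (1 - θ) / 8) * fv k A c d μ F S x
      ≤ Psi k A c d μ (insert x F) S ∧
    ∀ y, y ≠ x → y ∉ F → y ∉ S → fv k A c d μ (insert x F) S y
      ≤ fv k A c d μ F S y + (c - 1) ^ 2 * c ^ (k - 1) / (A * (2 * k * A : ℕ) / 2) := by
  classical
  set N : ℕ := 2 * k * A with hN
  set E := fam A N with hE
  set W : ℝ := c ^ (k - 1) with hW
  set P := Phi c E F S with hPdef
  have hc1 := h.c1
  have hc0 : 0 ≤ c := by linarith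
  have hcc : 0 < c - 1 := by linarith
  have hW1 : 1 ≤ W := one_le_pow₀ hc1.le
  have hk2 : (2 : ℝ) ≤ k := by exact_mod_cast h.hk
  have hm1 : (1 : ℝ) ≤ m := by exact_mod_cast h.hm
  have h1θ : 0 < 1 - θ := by linarith [h.hθ1]
  have hA0 := h.A0
  have hA := h.hA
  rw [← hW] at hA
  have hNr : (N : ℝ) = 2 * k * A := by rw [hN]; push_cast; ring
  have hN0 : (0 : ℝ) < N := by rw [hNr]; positivity
  have hNA : (A : ℝ) ≤ N := by rw [hNr]; nlinarith
  have hu : ∀ L ∈ E, u c F S L ≤ W := hok.u_le h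
  have hPpos : 0 < P := lt_of_lt_of_le (by positivity) hP
  have hφx := phi_nonneg hc0 E F S x
  have hψx := phi_nonneg (by linarith [h.hd] : (0 : ℝ) ≤ d) (lns S) S F x
  have hPhi : Phi c E (insert x F) S = P + (c - 1) * phi c E F S x := Phi_insert hxF
  have hPle : P ≤ Phi c E (insert x F) S := by rw [hPhi]; nlinarith
  -- the average
  have hfx0 : (c - 1) / (4 * N) ≤ fv k A c d μ F S x := by
    have hkK : k < 2 * k := by have := h.hk; omega
    obtain ⟨v, hvF, hvS, hv⟩ := avg (c := c) hc0 (E := E) (V := box (2 * k) (2 * N)) (F := F)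
      (S := S) (K := 2 * k) (k := k)
      (fun L hL => card_box_line (A := A) (N := N) (by
        have : A * (2 * k) = N := by rw [hN]; ring
        omega) hL)
      (fun L hL hS => (hok L hL hS).trans (by omega)) hkK hPpos
    have hfv := hmax v hvF hvS
    refine le_trans ?_ hfv
    unfold fv
    rw [← hN, ← hE]
    have hψ : 0 ≤ μ * phi d (lns S) S F v :=
      mul_nonneg h.hμ (phi_nonneg (by linarith [h.hd]) _ _ _ _)
    have hφ := phi_nonneg hc0 E F S v
    have hcard : (((box (2 * k) (2 * N)).card : ℕ) : ℝ) ≤ (2 * k) * (2 * N) := by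
      exact_mod_cast card_box (2 * k) (2 * N)
    have h1 : (k : ℝ) * P ≤ (4 * k * N) * phi c E F S v := by
      have e1 : ((2 * k : ℕ) : ℝ) - k = k := by push_cast; ring
      rw [e1] at hv
      refine hv.trans ?_
      have := mul_le_mul_of_nonneg_right hcard hφ
      linarith
    have h2 : P ≤ (4 * N) * phi c E F S v := by
      have hk0 : (0 : ℝ) < k := by linarith
      have h3 : (k : ℝ) * P ≤ k * ((4 * N) * phi c E F S v) := by linarith
      exact le_of_mul_le_mul_left h3 hk0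
    have h3 : (c - 1) / (4 * N) ≤ (c - 1) * phi c E F S v / P := by
      rw [div_le_div_iff₀ (by positivity) hPpos]
      have := mul_le_mul_of_nonneg_left h2 hcc.le
      linarith
    linarith
  have hφle : phi c E F S x ≤ A * W := phi_le (by linarith) hu (card_fam_through A N x)
  set a := (c - 1) * phi c E F S x / P with ha
  have ha0 : 0 ≤ a := by rw [ha]; exact div_nonneg (mul_nonneg hcc.le hφx) hPpos.le
  -- `2 a ≤ (1 - θ) / 8`
  have h2a : 2 * a ≤ (1 - θ) / 8 := by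
    have h1 : a ≤ (c - 1) * (A * W) / (A * N / 2) := by
      rw [ha]
      calc (c - 1) * phi c E F S x / P ≤ (c - 1) * (A * W) / P :=
            div_le_div_of_nonneg_right (mul_le_mul_of_nonneg_left hφle hcc.le) hPpos.le
        _ ≤ _ := div_le_div_of_nonneg_left (by positivity) (by positivity) hP
    have h2 : (c - 1) * (A * W) / (A * N / 2) = 2 * ((c - 1) * W) / N := by
      field_simp
    have h3 : 2 * ((c - 1) * W) / N ≤ (1 - θ) / 16 := by
      rw [div_le_iff₀ hN0]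
      have h4 : (1 - θ) * A ≤ (1 - θ) * N := mul_le_mul_of_nonneg_left hNA h1θ.le
      have h5 : 64 * (1 * (c - 1)) * W ≤ 64 * (m * (c - 1)) * W := by
        have : 1 * (c - 1) ≤ m * (c - 1) := mul_le_mul_of_nonneg_right hm1 hcc.le
        nlinarith
      have h6 : 0 ≤ (1 - θ) * N := by positivity
      linarith
    linarith
  have hlog : Real.log P + (1 - (1 - θ) / 8) * a ≤ Real.log (Phi c E (insert x F) S) := by
    have h1 : P * (1 + a) = Phi c E (insert x F) S := by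
      rw [hPhi, ha]; field_simp
    have h2 := log_ineq (δ := a) (by linarith)
    rw [← h1, Real.log_mul hPpos.ne' (by linarith)]
    have h3 : 2 * a ^ 2 ≤ (1 - θ) / 8 * a := by nlinarith
    linarith
  refine ⟨hPle, hfx0, ?_, ?_⟩
  · have e1 : fv k A c d μ F S x = a + μ * phi d (lns S) S F x := by
      unfold fv; rw [ha]
    have e2 : Psi k A c d μ F S = Real.log P - μ * Phi d (lns S) S F := rfl
    have e3 : Psi k A c d μ (insert x F) S
        = Real.log (Phi c E (insert x F) S) - μ * Phi d (lns S) S (insert x F) := rfl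
    rw [e1, e2, e3, Phi_insert_opp]
    have h5 : 0 ≤ μ * phi d (lns S) S F x := mul_nonneg h.hμ hψx
    nlinarith
  · intro y hyx hyF hyS
    have h1 := phi_insert_le (c := c) (W := W) hc1.le (by linarith) (E := E)
      (fun L hL => isLn_fam hL) hu hxF (x := x) (y := y) hyx.symm
    have h2 := phi_anti (d := d) (by linarith [h.hd]) (E := lns S) (S := S) (subset_insert x F) y
    have hφy := phi_nonneg hc0 E F S y
    have e1 : fv k A c d μ (insert x F) S y = (c - 1) * phi c E (insert x F) S y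
        / Phi c E (insert x F) S + μ * phi d (lns S) S (insert x F) y := rfl
    have e2 : fv k A c d μ F S y = (c - 1) * phi c E F S y / P + μ * phi d (lns S) S F y := rfl
    rw [e1, e2]
    have h3 : μ * phi d (lns S) S (insert x F) y ≤ μ * phi d (lns S) S F y :=
      mul_le_mul_of_nonneg_left h2 h.hμ
    have h4 : (c - 1) * phi c E (insert x F) S y / Phi c E (insert x F) S
        ≤ (c - 1) * phi c E F S y / P + (c - 1) ^ 2 * W / (A * N / 2) := by
      calc (c - 1) * phi c E (insert x F) S y / Phi c E (insert x F) S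
          ≤ (c - 1) * (phi c E F S y + (c - 1) * W) / P := by
            apply div_le_div₀ (by positivity) (mul_le_mul_of_nonneg_left h1 hcc.le) hPpos hPle
        _ = (c - 1) * phi c E F S y / P + (c - 1) ^ 2 * W / P := by ring
        _ ≤ _ := by
            have : (c - 1) ^ 2 * W / P ≤ (c - 1) ^ 2 * W / (A * N / 2) :=
              div_le_div_of_nonneg_left (by positivity) (by positivity) hP
            linarith
    linarith

/-- A block of `o` stones of the opponent after `m` own stones with total gain `G`. -/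
lemma oblock (h : Par m o k A c d θ μ) {F S Y : Finset (ℤ × ℤ)} {G : ℝ}
    (hok : OkJ k A (k - 1) F S)
    (hYS : Disjoint S Y) (hYc : Y.card = o)
    (hP : (A : ℝ) * (2 * k * A : ℕ) / 2 ≤ Phi c (fam A (2 * k * A)) F S)
    (hcmp : ∀ y ∈ Y, m * fv k A c d μ F S y ≤ G) :
    0 < Phi c (fam A (2 * k * A)) F (S ∪ Y) ∧
    Psi k A c d μ F S - (1 + (1 - θ) / 8) * (θ * G) - μ * ((o * (S ∪ Y).card) * d ^ (o + 1))
      ≤ Psi k A c d μ F (S ∪ Y) := by
  classical
  set N : ℕ := 2 * k * A with hN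
  set E := fam A N with hE
  set W : ℝ := c ^ (k - 1) with hW
  set P := Phi c E F S with hPdef
  have hc1 := h.c1
  have hc0 : 0 ≤ c := by linarith
  have hcc : 0 < c - 1 := by linarith
  have hd0 : 0 ≤ d := by linarith [h.hd]
  have hW1 : 1 ≤ W := one_le_pow₀ hc1.le
  have hk2 : (2 : ℝ) ≤ k := by exact_mod_cast h.hk
  have hm1 : (1 : ℝ) ≤ m := by exact_mod_cast h.hm
  have hm0 : (0 : ℝ) < m := by linarith
  have ho1 : (1 : ℝ) ≤ o := by exact_mod_cast h.ho
  have ho0 : (0 : ℝ) < o := by linarith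
  have h1θ : 0 < 1 - θ := by linarith [h.hθ1]
  have hθ0 := h.hθ0
  have hθm : 0 < θ * m := mul_pos hθ0 hm0
  have hA0 := h.A0
  have hA := h.hA
  rw [← hW] at hA
  have hNr : (N : ℝ) = 2 * k * A := by rw [hN]; push_cast; ring
  have hN0 : (0 : ℝ) < N := by rw [hNr]; positivity
  have hNA : (A : ℝ) ≤ N := by rw [hNr]; nlinarith
  have hu : ∀ L ∈ E, u c F S L ≤ W := hok.u_le h
  have hPpos : 0 < P := lt_of_lt_of_le (by positivity) hP
  have hb1 := block1 (c := c) hc0 (E := E) F S Y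
  have hb2 := block2 (d := d) (τ := θ * m) h.hd h.ho h.hdo (F := F) hYc hYS
  set sφ := ∑ y ∈ Y, phi c E F S y with hsφ
  set sψ := ∑ y ∈ Y, phi d (lns S) S F y with hsψ
  have hsφ0 : 0 ≤ sφ := sum_nonneg fun y _ => phi_nonneg hc0 _ _ _ _
  have hsψ0 : 0 ≤ sψ := sum_nonneg fun y _ => phi_nonneg hd0 _ _ _ _
  set s := sφ / P with hs
  have hs0 : 0 ≤ s := div_nonneg hsφ0 hPpos.le
  have hμsψ : 0 ≤ μ * sψ := mul_nonneg h.hμ hsψ0
  -- the comparison
  have hsum : m * ((c - 1) * s + μ * sψ) ≤ o * G := by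
    have h1 : ∑ y ∈ Y, m * fv k A c d μ F S y ≤ ∑ y ∈ Y, G := sum_le_sum hcmp
    rw [sum_const, nsmul_eq_mul, hYc, ← mul_sum] at h1
    have h2 : ∑ y ∈ Y, fv k A c d μ F S y = (c - 1) * s + μ * sψ := by
      unfold fv
      rw [← hN, ← hE, sum_add_distrib, ← mul_sum, ← sum_div, ← mul_sum, hs]
      ring
    rw [h2] at h1
    exact h1
  have hcmp2 : s + θ * m / o * (μ * sψ) ≤ θ * G := by
    have h2 := mul_le_mul_of_nonneg_left hsum (show 0 ≤ θ / o by positivity)
    have e1 : θ / o * (m * ((c - 1) * s + μ * sψ))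
        = ((c - 1) * (θ * m)) / o * s + θ * m / o * (μ * sψ) := by ring
    have e2 : ((c - 1) * (θ * m)) / o = 1 := by rw [h.hcθ]; field_simp
    have e3 : θ / o * (o * G) = θ * G := by field_simp
    rw [e1, e2, e3] at h2
    linarith
  -- `2 s ≤ (1 - θ) / 8`
  have h2s : 2 * s ≤ (1 - θ) / 8 := by
    have h1 : sφ ≤ o * (A * W) := by
      calc sφ ≤ ∑ y ∈ Y, (A * W : ℝ) :=
            sum_le_sum fun y _ => phi_le (by linarith) hu (card_fam_through A N y)
        _ = o * (A * W) := by rw [sum_const, nsmul_eq_mul, hYc]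
    have h2 : s ≤ o * (A * W) / (A * N / 2) := by
      rw [hs]
      calc sφ / P ≤ o * (A * W) / P := div_le_div_of_nonneg_right h1 hPpos.le
        _ ≤ _ := div_le_div_of_nonneg_left (by positivity) (by positivity) hP
    have h3 : o * (A * W) / (A * N / 2) = 2 * (o * W) / N := by field_simp
    have h4 : 2 * (o * W) / N ≤ (1 - θ) / 16 := by
      rw [div_le_iff₀ hN0]
      have h5 : (o : ℝ) ≤ m * (c - 1) := by
        rw [← h.hcθ]
        have : (c - 1) * (θ * m) ≤ (c - 1) * (1 * m) :=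
          mul_le_mul_of_nonneg_left (mul_le_mul_of_nonneg_right h.hθ1.le hm0.le) hcc.le
        linarith
      have h6 : (o : ℝ) * W ≤ m * (c - 1) * W := mul_le_mul_of_nonneg_right h5 (by linarith)
      have h7 : (1 - θ) * A ≤ (1 - θ) * N := mul_le_mul_of_nonneg_left hNA h1θ.le
      have h8 : 0 ≤ (1 - θ) * N := by positivity
      linarith
    linarith
  have hs12 : s ≤ 1 / 2 := by linarith [h.hθ0]
  have hPs : P * (1 + -s) ≤ Phi c E F (S ∪ Y) := by
    have : P * (1 + -s) = P - sφ := by rw [hs]; field_simp; ring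
    rw [this]; exact hb1
  have h1s : 0 < 1 + -s := by linarith
  have hpos : 0 < Phi c E F (S ∪ Y) := lt_of_lt_of_le (mul_pos hPpos h1s) hPs
  refine ⟨hpos, ?_⟩
  have hlog : Real.log P - (1 + (1 - θ) / 8) * s ≤ Real.log (Phi c E F (S ∪ Y)) := by
    have h1 := log_ineq (δ := -s) (by linarith)
    have h2 : Real.log P + Real.log (1 + -s) ≤ Real.log (Phi c E F (S ∪ Y)) := by
      rw [← Real.log_mul hPpos.ne' h1s.ne']
      exact Real.log_le_log (mul_pos hPpos h1s) hPs
    have h3 : 2 * s ^ 2 ≤ (1 - θ) / 8 * s := by nlinarith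
    nlinarith
  have e2 : Psi k A c d μ F S = Real.log P - μ * Phi d (lns S) S F := rfl
  have e3 : Psi k A c d μ F (S ∪ Y)
      = Real.log (Phi c E F (S ∪ Y)) - μ * Phi d (lns (S ∪ Y)) (S ∪ Y) F := rfl
  rw [e2, e3]
  have hμb2 := mul_le_mul_of_nonneg_left hb2 h.hμ
  have e4 : μ * (Phi d (lns S) S F + θ * m / o * sψ + (o * (S ∪ Y).card) * d ^ (o + 1))
      = μ * Phi d (lns S) S F + θ * m / o * (μ * sψ) + μ * ((o * (S ∪ Y).card) * d ^ (o + 1)) := by
    ring
  rw [e4] at hμb2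
  have h5 : (1 + (1 - θ) / 8) * (s + θ * m / o * (μ * sψ)) ≤ (1 + (1 - θ) / 8) * (θ * G) :=
    mul_le_mul_of_nonneg_left hcmp2 (by linarith)
  have h6 : 0 ≤ (1 - θ) / 8 * (θ * m / o * (μ * sψ)) := by positivity
  have e5 : (1 + (1 - θ) / 8) * (s + θ * m / o * (μ * sψ))
      = (1 + (1 - θ) / 8) * s + θ * m / o * (μ * sψ)
        + (1 - θ) / 8 * (θ * m / o * (μ * sψ)) := by ring
  rw [e5] at h5
  linarith

/-- The arithmetic of a whole round. -/
lemma comb (h : Par m o k A c d θ μ) {G : ℝ}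
    (hG : m * ((c - 1) / (4 * (2 * k * A : ℕ))) ≤ G) :
    (1 - θ) * (m * (c - 1)) / (8 * (2 * k * A : ℕ)) ≤ (1 - (1 - θ) / 8) * G
      - (1 + (1 - θ) / 8) * (θ * (G + m ^ 2 *
        ((c - 1) ^ 2 * c ^ (k - 1) / (A * (2 * k * A : ℕ) / 2)))) := by
  set N : ℕ := 2 * k * A with hN
  set W : ℝ := c ^ (k - 1) with hW
  have hc1 := h.c1
  have hcc : 0 < c - 1 := by linarith
  have hW1 : 1 ≤ W := one_le_pow₀ hc1.le
  have hk2 : (2 : ℝ) ≤ k := by exact_mod_cast h.hk
  have hm1 : (1 : ℝ) ≤ m := by exact_mod_cast h.hm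
  have hm0 : (0 : ℝ) < m := by linarith
  have h1θ : 0 < 1 - θ := by linarith [h.hθ1]
  have hθ0 := h.hθ0
  have hθ1 := h.hθ1
  have hA0 := h.A0
  have hA := h.hA
  rw [← hW] at hA
  have hNr : (N : ℝ) = 2 * k * A := by rw [hN]; push_cast; ring
  have hN0 : (0 : ℝ) < N := by rw [hNr]; positivity
  set γ := (c - 1) / (4 * (N : ℝ)) with hγ
  have hγ0 : 0 < γ := by rw [hγ]; positivity
  set ε := (m : ℝ) ^ 2 * ((c - 1) ^ 2 * W / (A * N / 2)) with hε
  have hε0 : 0 ≤ ε := by rw [hε]; positivity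
  have h2ε : 2 * ε ≤ (1 - θ) / 4 * (m * γ) := by
    have e1 : 2 * ε = (m * (c - 1)) * (64 * (m * (c - 1)) * W) / (16 * A * N) := by
      rw [hε]; field_simp; ring
    have e2 : (1 - θ) / 4 * (m * γ) = (m * (c - 1)) * ((1 - θ) * A) / (16 * A * N) := by
      rw [hγ]; field_simp; ring
    rw [e1, e2]
    apply div_le_div_of_nonneg_right _ (by positivity)
    exact mul_le_mul_of_nonneg_left hA (by positivity)
  have hG0 : 0 ≤ G := le_trans (by positivity) hG
  have h2εG : 2 * ε ≤ (1 - θ) / 4 * G :=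
    h2ε.trans (mul_le_mul_of_nonneg_left hG (by linarith))
  have e3 : (1 - θ) * (m * (c - 1)) / (8 * N) = (1 - θ) / 2 * (m * γ) := by
    rw [hγ]; field_simp; ring
  rw [e3]
  have h3 : (1 - θ) / 2 * (m * γ) ≤ (1 - θ) / 2 * G := mul_le_mul_of_nonneg_left hG (by linarith)
  have h4 : (1 + (1 - θ) / 8) * (θ * ε) ≤ 2 * ε := by
    have h5 : (1 + (1 - θ) / 8) * θ ≤ 2 := by nlinarith
    calc (1 + (1 - θ) / 8) * (θ * ε) = ((1 + (1 - θ) / 8) * θ) * ε := by ring
      _ ≤ 2 * ε := mul_le_mul_of_nonneg_right h5 hε0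
  have h6 : (3 / 4) * ((1 - θ) * G) ≤ (1 - (1 - θ) / 8) * G - (1 + (1 - θ) / 8) * (θ * G) := by
    have e4 : (1 - (1 - θ) / 8) * G - (1 + (1 - θ) / 8) * (θ * G)
        = (1 - θ) * G * (1 - (1 + θ) / 8) := by ring
    rw [e4]
    have h7 : 0 ≤ (1 - θ) * G := by positivity
    nlinarith
  have e5 : (1 + (1 - θ) / 8) * (θ * (G + ε))
      = (1 + (1 - θ) / 8) * (θ * G) + (1 + (1 - θ) / 8) * (θ * ε) := by ring
  rw [e5]
  linarith

end Pool.Agent.H89.KapH
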